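import Pool.Agent.KS6_42.DX.Fil

/-!
# Self-extensions of `R`

For a sequence `f` of polynomials such that every operator commutes with all but finitely many of
them, the series `∑ f_l` defines an extension of `R` by `R`.
-/

set_option autoImplicit false

set_option linter.unusedSectionVars false

universe u v

namespace Pool.Agent.KS6_42.DX

open MvPolynomial Filter

variable {k : Type u} [Field k] {n : ℕ}

/-- Every operator commutes with the multiplication by `f l` for all large `l`. -/
def EvComm (f : ℕ → Rn k n) : Prop :=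
  ∀ d : DD k n, ∀ᶠ l in atTop, ∀ g : Rn k n, d • (f l * g) = f l * (d • g)

/-- partial sums -/
noncomputable def ps (f : ℕ → Rn k n) (N : ℕ) : Rn k n := ∑ l ∈ Finset.range N, f l

/-- the commutator of `d` and the `N`-th partial sum -/
noncomputable def cmt (f : ℕ → Rn k n) (N : ℕ) (d : DD k n) : EndR k n :=
  (d : EndR k n) ∘ₗ LinearMap.mulLeft k (ps f N) - LinearMap.mulLeft k (ps f N) ∘ₗ (d : EndR k n)

lemma cmt_apply (f : ℕ → Rn k n) (N : ℕ) (d : DD k n) (g : Rn k n) :
    cmt f N d g = d • (ps f N * g) - ps f N * (d • g) := rfl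

variable (f : ℕ → Rn k n)

lemma cmt_add (N : ℕ) (d d' : DD k n) : cmt f N (d + d') = cmt f N d + cmt f N d' := by
  apply LinearMap.ext
  intro g
  rw [LinearMap.add_apply, cmt_apply, cmt_apply, cmt_apply, add_smul, add_smul]
  ring

lemma cmt_smul (N : ℕ) (c : k) (d : DD k n) : cmt f N (c • d) = c • cmt f N d := by
  apply LinearMap.ext
  intro g
  rw [LinearMap.smul_apply, cmt_apply, cmt_apply, smul_assoc, smul_assoc, mul_smul_comm, smul_sub]

lemma cmt_mul (N : ℕ) (d d' : DD k n) (g : Rn k n) :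
    cmt f N (d * d') g = d • cmt f N d' g + cmt f N d (d' • g) := by
  rw [cmt_apply, cmt_apply, cmt_apply, mul_smul, mul_smul, smul_sub]
  ring

lemma cmt_one (N : ℕ) : cmt f N (1 : DD k n) = 0 := by
  apply LinearMap.ext
  intro g
  rw [cmt_apply, one_smul, one_smul, sub_self]
  rfl

variable {f}

lemma cmt_stable (hf : EvComm f) (d : DD k n) : ∃ N, ∀ l ≥ N, cmt f l d = cmt f N d := by
  obtain ⟨N, hN⟩ := eventually_atTop.1 (hf d)
  refine ⟨N, fun l hl => ?_⟩
  induction l, hl using Nat.le_induction with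
  | base => rfl
  | succ l hl ih =>
    rw [← ih]
    apply LinearMap.ext
    intro g
    have h1 : ps f (l + 1) = ps f l + f l := by
      rw [ps, Finset.sum_range_succ, ps]
    rw [cmt_apply, cmt_apply, h1, add_mul, smul_add, hN l hl g]
    ring

/-- The commutator of `d` and the series. -/
noncomputable def cc (hf : EvComm f) (d : DD k n) : EndR k n :=
  cmt f (cmt_stable hf d).choose d

lemma cc_ev (hf : EvComm f) (d : DD k n) : ∀ᶠ l in atTop, cc hf d = cmt f l d := by
  rw [eventually_atTop]
  exact ⟨_, fun l hl => ((cmt_stable hf d).choose_spec l hl).symm⟩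

/-- The algebra homomorphism defining the extension. -/
noncomputable def rho (hf : EvComm f) : DD k n →ₐ[k] Module.End k (Rn k n × Rn k n) :=
  AlgHom.ofLinearMap
    { toFun := fun d => LinearMap.prod
        ((d : EndR k n) ∘ₗ LinearMap.fst k _ _ + cc hf d ∘ₗ LinearMap.snd k _ _)
        ((d : EndR k n) ∘ₗ LinearMap.snd k _ _)
      map_add' := fun d d' => by
        obtain ⟨l, ⟨h1, h2⟩, h3⟩ := (((cc_ev hf d).and (cc_ev hf d')).and (cc_ev hf (d + d'))).exists
        apply LinearMap.ext
        rintro ⟨a, b⟩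
        show ((d + d') • a + cc hf (d + d') b, (d + d') • b) =
          (d • a + cc hf d b, d • b) + (d' • a + cc hf d' b, d' • b)
        rw [h1, h2, h3, cmt_add, LinearMap.add_apply, add_smul, add_smul, Prod.mk_add_mk]
        congr 1
        abel
      map_smul' := fun c d => by
        obtain ⟨l, h1, h2⟩ := ((cc_ev hf d).and (cc_ev hf (c • d))).exists
        apply LinearMap.ext
        rintro ⟨a, b⟩
        show ((c • d) • a + cc hf (c • d) b, (c • d) • b) = c • (d • a + cc hf d b, d • b)
        rw [h1, h2, cmt_smul, LinearMap.smul_apply, smul_assoc, smul_assoc, Prod.smul_mk,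
          smul_add] }
    (by
      obtain ⟨l, h1⟩ := (cc_ev hf (1 : DD k n)).exists
      apply LinearMap.ext
      rintro ⟨a, b⟩
      show ((1 : DD k n) • a + cc hf (1 : DD k n) b, (1 : DD k n) • b) = (a, b)
      rw [h1, cmt_one, one_smul, one_smul, LinearMap.zero_apply, add_zero])
    (by
      intro d d'
      obtain ⟨l, ⟨h1, h2⟩, h3⟩ := (((cc_ev hf d).and (cc_ev hf d')).and (cc_ev hf (d * d'))).exists
      apply LinearMap.ext
      rintro ⟨a, b⟩
      show ((d * d') • a + cc hf (d * d') b, (d * d') • b) =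
        (d • (d' • a + cc hf d' b) + cc hf d (d' • b), d • (d' • b))
      rw [h1, h2, h3, cmt_mul, mul_smul, mul_smul, smul_add]
      congr 1
      abel)

lemma rho_apply (hf : EvComm f) (d : DD k n) (a b : Rn k n) :
    rho hf d (a, b) = (d • a + cc hf d b, d • b) := rfl

/-- The extension. -/
def MM (_ : EvComm f) : Type u := Rn k n × Rn k n

noncomputable instance instAddCommGroupMM (hf : EvComm f) : AddCommGroup (MM hf) :=
  inferInstanceAs (AddCommGroup (Rn k n × Rn k n))

noncomputable instance instKModuleMM (hf : EvComm f) : Module k (MM hf) :=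
  inferInstanceAs (Module k (Rn k n × Rn k n))

noncomputable instance instModuleMM (hf : EvComm f) : Module (DD k n) (MM hf) :=
  (Module.compHom (Rn k n × Rn k n) (rho hf).toRingHom : Module (DD k n) (Rn k n × Rn k n))

/-- The elements of the extension. -/
def mk (hf : EvComm f) (a b : Rn k n) : MM hf := (a, b)

lemma exists_mk {hf : EvComm f} (z : MM hf) : ∃ a b, z = mk hf a b := ⟨z.1, z.2, rfl⟩

lemma mk_inj {hf : EvComm f} {a b a' b' : Rn k n} (h : mk hf a b = mk hf a' b') :
    a = a' ∧ b = b' := Prod.ext_iff.1 h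

lemma mk_add (hf : EvComm f) (a b a' b' : Rn k n) :
    mk hf a b + mk hf a' b' = mk hf (a + a') (b + b') := rfl

lemma mk_ksmul (hf : EvComm f) (c : k) (a b : Rn k n) : c • mk hf a b = mk hf (c • a) (c • b) := rfl

lemma smul_mk (hf : EvComm f) (d : DD k n) (a b : Rn k n) :
    d • mk hf a b = mk hf (d • a + cc hf d b) (d • b) := rfl

noncomputable instance instTowerMM (hf : EvComm f) : IsScalarTower k (DD k n) (MM hf) where
  smul_assoc c d z := by
    show rho hf (c • d) z = c • rho hf d z
    rw [map_smul]; rfl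

/-- The inclusion of `R`. -/
noncomputable def incl (hf : EvComm f) : Rn k n →ₗ[DD k n] MM hf where
  toFun a := mk hf a 0
  map_add' a b := by rw [mk_add, add_zero]
  map_smul' d a := by
    rw [RingHom.id_apply, smul_mk, map_zero, add_zero, smul_zero]

/-- The projection to `R`. -/
noncomputable def proj (hf : EvComm f) : MM hf →ₗ[DD k n] Rn k n where
  toFun z := Prod.snd (α := Rn k n) (β := Rn k n) z
  map_add' a b := rfl
  map_smul' d z := rfl

lemma incl_injective (hf : EvComm f) : Function.Injective (incl hf) :=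
  fun _ _ h => (mk_inj h).1

lemma proj_surjective (hf : EvComm f) : Function.Surjective (proj hf) := fun g => ⟨mk hf 0 g, rfl⟩

lemma exact_incl_proj (hf : EvComm f) : Function.Exact (incl hf) (proj hf) := by
  intro z
  obtain ⟨a, b, rfl⟩ := exists_mk z
  constructor
  · intro h
    have hb : b = 0 := h
    exact ⟨a, by rw [hb]; rfl⟩
  · rintro ⟨c, hc⟩
    exact ((mk_inj hc).2).symm

/-- the two generators -/
noncomputable def gens (hf : EvComm f) : Set (MM hf) := {mk hf 1 0, mk hf 0 1}

/-- `D_t` kills `1` for `t ≠ 0`. -/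
lemma Dt_one {t : Fin n →₀ ℕ} (ht : t ≠ 0) : Dt t (1 : Rn k n) = 0 := by
  rw [← xm_zero, Dt_xm]
  have : bi (0 : Fin n →₀ ℕ) t = 0 := by
    by_contra h
    exact ht (le_antisymm (bi_ne_zero h) zero_le)
  rw [this, Nat.cast_zero, zero_smul]

lemma mulD_eq_basisD (a : Fin n →₀ ℕ) : (mulD (xm k a) : DD k n) = basisD a 0 := by
  rw [basisD_eq, derT_zero, mul_one]

/-- `x^a (1, 0) = (x^a, 0)` -/
lemma smul_gen1 (hf : EvComm f) (a : Fin n →₀ ℕ) :
    (basisD a 0 : DD k n) • mk hf 1 0 = mk hf (xm k a) 0 := by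
  rw [smul_mk, map_zero, add_zero, smul_zero, ← mulD_eq_basisD, mulD_smul, mul_one]

/-- `x^a D_t (1, 0) = 0` for `t ≠ 0` -/
lemma smul_gen1' (hf : EvComm f) (a t : Fin n →₀ ℕ) (ht : t ≠ 0) :
    (basisD a t : DD k n) • mk hf 1 0 = 0 := by
  rw [smul_mk, map_zero, add_zero, smul_zero, basisD_smul, Dt_one ht, mul_zero]
  rfl

/-- `x^a (0, 1) = (0, x^a)` -/
lemma smul_gen2 (hf : EvComm f) (a : Fin n →₀ ℕ) :
    (basisD a 0 : DD k n) • mk hf 0 1 = mk hf 0 (xm k a) := by
  obtain ⟨l, hl⟩ := (cc_ev hf (basisD a 0 : DD k n)).exists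
  rw [smul_mk, hl, cmt_apply, ← mulD_eq_basisD]
  simp only [mulD_smul, mul_one]
  congr 1
  ring

/-- `x^a D_t (0, 1) = (x^a D_t (∑ f_l), 0)` for `t ≠ 0` -/
lemma smul_gen2' (hf : EvComm f) (a t : Fin n →₀ ℕ) (ht : t ≠ 0) :
    ∀ᶠ l in atTop, (basisD a t : DD k n) • mk hf 0 1 = mk hf (xm k a * Dt t (ps f l)) 0 := by
  filter_upwards [cc_ev hf (basisD a t : DD k n)] with l hl
  rw [smul_mk, hl, cmt_apply]
  simp only [basisD_smul, Dt_one ht, map_zero, mul_zero, zero_add, sub_zero, mul_one]

/-- The two elements generate the extension. -/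
theorem span_gens (hf : EvComm f) : Submodule.span (DD k n) (gens hf) = ⊤ := by
  rw [eq_top_iff]
  intro z _
  obtain ⟨a, b, rfl⟩ := exists_mk z
  have h1 : mk hf a b = (mulD a : DD k n) • mk hf 1 0 + (mulD b : DD k n) • mk hf 0 1 := by
    obtain ⟨l, hl⟩ := (cc_ev hf (mulD b : DD k n)).exists
    rw [smul_mk, smul_mk, hl, cmt_apply, mk_add]
    simp only [mulD_smul, map_zero]
    congr 1
    · ring
    · ring
  rw [h1]
  exact Submodule.add_mem _
    (Submodule.smul_mem _ _ (Submodule.subset_span (Or.inl rfl)))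
    (Submodule.smul_mem _ _ (Submodule.subset_span (Or.inr rfl)))

end Pool.Agent.KS6_42.DX
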