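import Pool.Agent.KS6_42.DX.Ops

/-!
# General facts on filtrations
-/

set_option autoImplicit false

set_option linter.unusedSectionVars false

universe u v

namespace Pool.Agent.KS6_42.DX

open MvPolynomial

variable {k : Type u} [Field k] {n : ℕ}

/-- The exponents with all coordinates less than `b`. -/
noncomputable def box (n b : ℕ) : Finset (Fin n →₀ ℕ) :=
  (Fintype.piFinset fun _ : Fin n => Finset.range b).map
    Finsupp.equivFunOnFinite.symm.toEmbedding

lemma mem_box {b : ℕ} {a : Fin n →₀ ℕ} : a ∈ box n b ↔ ∀ i, a i < b := by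
  unfold box
  rw [Finset.mem_map]
  constructor
  · rintro ⟨f, hf, rfl⟩ i
    rw [Fintype.mem_piFinset] at hf
    exact Finset.mem_range.1 (hf i)
  · intro h
    refine ⟨a, ?_, ?_⟩
    · rw [Fintype.mem_piFinset]
      exact fun i => Finset.mem_range.2 (h i)
    · ext i; rfl

lemma card_box (b : ℕ) : (box n b).card = b ^ n := by
  unfold box
  rw [Finset.card_map, Fintype.card_piFinset]
  simp

lemma le_deg (a : Fin n →₀ ℕ) (i : Fin n) : a i ≤ deg a :=
  Finset.single_le_sum (fun _ _ => Nat.zero_le _) (Finset.mem_univ i)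

lemma mem_box_of_deg {a : Fin n →₀ ℕ} {s : ℕ} (h : deg a ≤ s) : a ∈ box n (s + 1) :=
  mem_box.2 fun i => by have := le_deg a i; omega

lemma deg_of_mem_box {a : Fin n →₀ ℕ} {b : ℕ} (h : a ∈ box n b) : deg a ≤ n * (b - 1) := by
  unfold deg
  calc ∑ i, a i ≤ ∑ _i : Fin n, (b - 1) := Finset.sum_le_sum fun i _ => by
        have := mem_box.1 h i; omega
    _ = n * (b - 1) := by simp

section Modules

variable {M : Type v} [AddCommGroup M] [Module k M] [Module (DD k n) M]
  [IsScalarTower k (DD k n) M]

lemma filt_mono {S : Set M} {i j : ℕ} (h : i ≤ j) : filt k n S i ≤ filt k n S j := by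
  apply Submodule.span_mono
  rintro y ⟨d, hd, m, hm, rfl⟩
  exact ⟨d, bern_mono h hd, m, hm, rfl⟩

lemma smul_mem_filt {S : Set M} {i j : ℕ} {d : DD k n} (hd : d ∈ bern k n i) {y : M}
    (hy : y ∈ filt k n S j) : d • y ∈ filt k n S (i + j) := by
  induction hy using Submodule.span_induction with
  | mem x hx =>
    obtain ⟨d', hd', m, hm, rfl⟩ := hx
    exact Submodule.subset_span ⟨d * d', bern_mul hd hd', m, hm, by rw [mul_smul]⟩
  | zero => rw [smul_zero]; exact Submodule.zero_mem _
  | add x y _ _ hx hy => rw [smul_add]; exact Submodule.add_mem _ hx hy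
  | smul c x _ hx =>
    have : d • c • x = c • d • x := by
      rw [← algebraMap_smul (DD k n) c x, ← mul_smul, ← Algebra.commutes, mul_smul,
        algebraMap_smul]
    rw [this]
    exact Submodule.smul_mem _ _ hx

lemma subset_filt (S : Set M) (i : ℕ) : S ⊆ filt k n S i := by
  intro m hm
  refine Submodule.subset_span ⟨1, bern_mono (Nat.zero_le _) one_mem_bern, m,
    Submodule.subset_span hm, ?_⟩
  rw [one_smul]

/-- If `S` lies in the `c`-th term of a filtration, then `F_i S` lies in the `(i + c)`-th. -/
lemma filt_le_of_kfil {S : Set M} {G : ℕ → Submodule k M} (hG : IsKFiltration k n M G) {c : ℕ}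
    (h : S ⊆ G c) (i : ℕ) : filt k n S i ≤ G (i + c) := by
  rw [filt, Submodule.span_le]
  rintro y ⟨d, hd, m, hm, rfl⟩
  exact hG.smul_mem i c d hd m (Submodule.span_le.2 h hm)

lemma filt_le_filt {S S' : Set M} {c : ℕ} (h : S' ⊆ filt k n S c) (i : ℕ) :
    filt k n S' i ≤ filt k n S (i + c) := by
  rw [filt, Submodule.span_le]
  rintro y ⟨d, hd, m, hm, rfl⟩
  exact smul_mem_filt hd (Submodule.span_le.2 h hm)

/-- If `S` generates `M`, then the subspaces `F_i S` exhaust `M`. -/
lemma exists_mem_filt {S : Set M} (hS : Submodule.span (DD k n) S = ⊤) (m : M) :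
    ∃ i, m ∈ filt k n S i := by
  have hm : m ∈ Submodule.span (DD k n) S := by rw [hS]; trivial
  induction hm using Submodule.span_induction with
  | mem x hx => exact ⟨0, subset_filt S 0 hx⟩
  | zero => exact ⟨0, Submodule.zero_mem _⟩
  | add x y _ _ hx hy =>
    obtain ⟨i, hi⟩ := hx
    obtain ⟨j, hj⟩ := hy
    exact ⟨max i j, Submodule.add_mem _ (filt_mono (le_max_left _ _) hi)
      (filt_mono (le_max_right _ _) hj)⟩
  | smul d x _ hx =>
    obtain ⟨i, hi⟩ := hx
    obtain ⟨j, hj⟩ := exists_mem_bern d
    exact ⟨j + i, smul_mem_filt hj hi⟩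

lemma exists_subset_filt {S : Set M} (hS : Submodule.span (DD k n) S = ⊤) (T : Finset M) :
    ∃ i, (T : Set M) ⊆ filt k n S i := by
  classical
  induction T using Finset.induction_on with
  | empty => exact ⟨0, by simp⟩
  | insert a T _ ih =>
    obtain ⟨i, hi⟩ := ih
    obtain ⟨j, hj⟩ := exists_mem_filt (k := k) (n := n) hS a
    refine ⟨max i j, ?_⟩
    rw [Finset.coe_insert, Set.insert_subset_iff]
    exact ⟨filt_mono (le_max_right _ _) hj, fun x hx => filt_mono (le_max_left _ _) (hi hx)⟩

/-- `F_i S` is spanned by the products of the basis elements with the elements of `S`. -/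
lemma filt_eq (S : Set M) (i : ℕ) : filt k n S i =
    Submodule.span k {y | ∃ a t : Fin n →₀ ℕ, deg a + deg t ≤ i ∧ ∃ m ∈ S,
      y = (basisD a t : DD k n) • m} := by
  apply le_antisymm
  · rw [filt, Submodule.span_le]
    rintro y ⟨d, hd, m, hm, rfl⟩
    rw [SetLike.mem_coe]
    induction hd using Submodule.span_induction with
    | mem x hx =>
      obtain ⟨a, t, h, rfl⟩ := hx
      induction hm using Submodule.span_induction with
      | mem y hy => exact Submodule.subset_span ⟨a, t, h, y, hy, rfl⟩
      | zero => rw [smul_zero]; exact Submodule.zero_mem _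
      | add x y _ _ hx hy => rw [smul_add]; exact Submodule.add_mem _ hx hy
      | smul c x _ hx =>
        have : (basisD a t : DD k n) • c • x = c • (basisD a t : DD k n) • x := by
          rw [← algebraMap_smul (DD k n) c x, ← mul_smul, ← Algebra.commutes, mul_smul,
            algebraMap_smul]
        rw [this]
        exact Submodule.smul_mem _ _ hx
    | zero => rw [zero_smul]; exact Submodule.zero_mem _
    | add x y _ _ hx hy => rw [add_smul]; exact Submodule.add_mem _ hx hy
    | smul c x _ hx => rw [smul_assoc]; exact Submodule.smul_mem _ _ hx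
  · rw [Submodule.span_le]
    rintro y ⟨a, t, h, m, hm, rfl⟩
    exact Submodule.subset_span ⟨_, basisD_mem h, m, Submodule.subset_span hm, rfl⟩

/-- `F_i S` is finite-dimensional for a finite set `S`. -/
theorem finite_filt (S : Finset M) (i : ℕ) : FiniteDimensional k (filt k n (S : Set M) i) := by
  classical
  rw [filt_eq]
  have hfin : Set.Finite {y : M | ∃ a t : Fin n →₀ ℕ, deg a + deg t ≤ i ∧
      ∃ m ∈ (S : Set M), y = (basisD a t : DD k n) • m} := by
    refine Set.Finite.subset ((((box n (i + 1)) ×ˢ (box n (i + 1))) ×ˢ S).image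
      fun z => (basisD z.1.1 z.1.2 : DD k n) • z.2).finite_toSet ?_
    rintro y ⟨a, t, h, m, hm, rfl⟩
    rw [Finset.coe_image]
    refine ⟨((a, t), m), ?_, rfl⟩
    simp only [Finset.mem_coe, Finset.mem_product]
    exact ⟨⟨mem_box_of_deg (by omega), mem_box_of_deg (by omega)⟩, hm⟩
  exact FiniteDimensional.span_of_finite k hfin

end Modules

/-! ### The polynomial ring is holonomic -/

theorem isHolonomic_Rn : IsHolonomic k n (Rn k n) := by
  classical
  refine ⟨fun i => Submodule.span k ((fun a => xm k a) '' {a : Fin n →₀ ℕ | deg a ≤ i}),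
    ⟨?_, ?_, ?_⟩, 2 ^ n, ?_⟩
  · intro i
    apply Submodule.span_mono
    apply Set.image_mono
    intro a (ha : deg a ≤ i)
    exact Nat.le_succ_of_le ha
  · intro m
    have hm : m ∈ Submodule.span k (Set.range (xm k : (Fin n →₀ ℕ) → Rn k n)) := by
      rw [span_xm]; trivial
    induction hm using Submodule.span_induction with
    | mem x hx =>
      obtain ⟨w, rfl⟩ := hx
      exact ⟨deg w, Submodule.subset_span ⟨w, (le_refl (deg w) : deg w ≤ deg w), rfl⟩⟩
    | zero => exact ⟨0, Submodule.zero_mem _⟩
    | add x y _ _ hx hy =>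
      obtain ⟨i, hi⟩ := hx
      obtain ⟨j, hj⟩ := hy
      refine ⟨max i j, Submodule.add_mem _ ?_ ?_⟩
      · refine Submodule.span_mono (Set.image_mono ?_) hi
        intro a (ha : deg a ≤ i)
        exact le_trans ha (le_max_left _ _)
      · refine Submodule.span_mono (Set.image_mono ?_) hj
        intro a (ha : deg a ≤ j)
        exact le_trans ha (le_max_right _ _)
    | smul c x _ hx =>
      obtain ⟨i, hi⟩ := hx
      exact ⟨i, Submodule.smul_mem _ _ hi⟩
  · intro i j d hd m hm
    induction hd using Submodule.span_induction with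
    | mem x hx =>
      obtain ⟨a, t, h, rfl⟩ := hx
      change deg a + deg t ≤ i at h
      induction hm using Submodule.span_induction with
      | mem y hy =>
        obtain ⟨v, (hv : deg v ≤ j), rfl⟩ := hy
        simp only
        rw [basisD_smul_xm]
        apply Submodule.smul_mem
        refine Submodule.subset_span ⟨_, ?_, rfl⟩
        show deg (a + (v - t)) ≤ i + j
        rw [deg_add]
        have : deg (v - t) ≤ deg v := deg_mono tsub_le_self
        omega
      | zero => rw [smul_zero]; exact Submodule.zero_mem _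
      | add x y _ _ hx hy => rw [smul_add]; exact Submodule.add_mem _ hx hy
      | smul c x _ hx =>
        rw [basisD_smul, map_smul, mul_smul_comm, ← basisD_smul]
        exact Submodule.smul_mem _ _ hx
    | zero => rw [zero_smul]; exact Submodule.zero_mem _
    | add x y _ _ hx hy => rw [add_smul]; exact Submodule.add_mem _ hx hy
    | smul c x _ hx => rw [smul_assoc]; exact Submodule.smul_mem _ _ hx
  · intro i hi
    have h1 : (fun a => xm k a) '' {a : Fin n →₀ ℕ | deg a ≤ i} ⊆
        (((box n (i + 1)).image fun a => xm k a : Finset (Rn k n)) : Set (Rn k n)) := by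
      rintro y ⟨a, (ha : deg a ≤ i), rfl⟩
      rw [Finset.coe_image]
      exact ⟨a, mem_box_of_deg ha, rfl⟩
    refine (Submodule.rank_mono (Submodule.span_mono h1)).trans ?_
    refine (rank_span_finset_le _).trans ?_
    have h2 : ((box n (i + 1)).image fun a => xm k a).card ≤ 2 ^ n * i ^ n := by
      refine Finset.card_image_le.trans ?_
      rw [card_box, ← mul_pow]
      exact Nat.pow_le_pow_left (by omega) n
    exact_mod_cast h2

end Pool.Agent.KS6_42.DX
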