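import Mathlib

/-!
# Growth exponents
-/

set_option autoImplicit false

namespace Pool.Agent.KS6_42.DX

open Filter

/-- upper growth bound -/
def UB (g : ℕ → ℝ) (r : ℝ) : Prop := ∀ ρ, r < ρ → ∀ᶠ s : ℕ in atTop, g s < (s : ℝ) ^ ρ

/-- lower growth bound -/
def LB (g : ℕ → ℝ) (r : ℝ) : Prop := ∀ ρ, ρ < r → ∃ᶠ s : ℕ in atTop, (s : ℝ) ^ ρ ≤ g s

lemma sInf_eq {g : ℕ → ℝ} {r : ℝ} (hU : UB g r) (hL : LB g r) :
    sInf {ρ : ℝ | ∀ᶠ s : ℕ in atTop, g s < (s : ℝ) ^ ρ} = r := by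
  apply IsGLB.csInf_eq
  · constructor
    · intro ρ hρ
      by_contra hlt
      push Not at hlt
      have h1 := hL ρ hlt
      obtain ⟨s, hs1, hs2⟩ := (h1.and_eventually hρ).exists
      exact absurd hs2 (not_lt.2 hs1)
    · intro b hb
      by_contra hlt
      push Not at hlt
      have h1 : (b + r) / 2 ∈ {ρ : ℝ | ∀ᶠ s : ℕ in atTop, g s < (s : ℝ) ^ ρ} :=
        hU _ (by linarith)
      have := hb h1
      linarith
  · exact ⟨r + 1, hU _ (by linarith)⟩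

/-- `C s^ρ' ≤ s^ρ` eventually, for `ρ' < ρ`. -/
lemma ev_le (C ρ' ρ : ℝ) (h : ρ' < ρ) :
    ∀ᶠ s : ℕ in atTop, C * (s : ℝ) ^ ρ' < (s : ℝ) ^ ρ := by
  have h1 : Tendsto (fun x : ℝ => x ^ (ρ - ρ')) atTop atTop := tendsto_rpow_atTop (by linarith)
  have h2 := (h1.comp tendsto_natCast_atTop_atTop).eventually_gt_atTop C
  filter_upwards [h2, eventually_ge_atTop 1] with s hs hs1
  have hs0 : (0 : ℝ) < s := by exact_mod_cast hs1
  have e1 : (s : ℝ) ^ ρ = (s : ℝ) ^ (ρ - ρ') * (s : ℝ) ^ ρ' := by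
    rw [← Real.rpow_add hs0]; ring_nf
  rw [e1]
  exact mul_lt_mul_of_pos_right hs (Real.rpow_pos_of_pos hs0 _)

/-- `(s + c)^ρ' ≤ s^ρ` eventually, for `0 ≤ ρ' < ρ`. -/
lemma ev_shift (c : ℕ) (ρ' ρ : ℝ) (h0 : 0 ≤ ρ') (h : ρ' < ρ) :
    ∀ᶠ s : ℕ in atTop, ((s + c : ℕ) : ℝ) ^ ρ' ≤ (s : ℝ) ^ ρ := by
  filter_upwards [ev_le ((2 : ℝ) ^ ρ') ρ' ρ h, eventually_ge_atTop c] with s hs hs1
  refine le_trans ?_ hs.le
  rw [← Real.mul_rpow (by norm_num) (Nat.cast_nonneg _)]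
  apply Real.rpow_le_rpow (Nat.cast_nonneg _) _ h0
  have : s + c ≤ 2 * s := by omega
  exact_mod_cast this

lemma UB.shift {g g' : ℕ → ℝ} {r : ℝ} (hr : 0 ≤ r) (hU : UB g r) (c : ℕ)
    (hle : ∀ s, g' s ≤ g (s + c)) : UB g' r := by
  intro ρ hρ
  have h1 := (tendsto_add_atTop_nat c).eventually (hU ((r + ρ) / 2) (by linarith))
  filter_upwards [h1, ev_shift c ((r + ρ) / 2) ρ (by linarith) (by linarith)] with s hs1 hs2
  exact lt_of_le_of_lt (hle s) (lt_of_lt_of_le hs1 hs2)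

lemma LB.shift {g g' : ℕ → ℝ} {r : ℝ} (hr : 0 < r) (hL : LB g r) (c : ℕ)
    (hle : ∀ s, g s ≤ g' (s + c)) : LB g' r := by
  intro ρ hρ
  have hm : max ρ 0 < r := max_lt hρ hr
  have h1 := hL ((max ρ 0 + r) / 2) (by linarith)
  have h2 := ev_shift c (max ρ 0) ((max ρ 0 + r) / 2) (le_max_right _ _) (by linarith)
  have h3 : ∃ᶠ s : ℕ in atTop, ((s + c : ℕ) : ℝ) ^ ρ ≤ g' (s + c) := by
    refine (h1.and_eventually (h2.and (eventually_ge_atTop 1))).mono ?_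
    rintro s ⟨hs1, hs2, hs3⟩
    refine le_trans ?_ (hle s)
    refine le_trans ?_ hs1
    refine le_trans ?_ hs2
    apply Real.rpow_le_rpow_of_exponent_le
    · have : 1 ≤ s + c := by omega
      exact_mod_cast this
    · exact le_max_left _ _
  exact (tendsto_add_atTop_nat c).frequently (p := fun s : ℕ => (s : ℝ) ^ ρ ≤ g' s) h3

/-! ### The choice of the exponents -/

/-- The numerical lemma. -/
lemma exists_exponents (p : ℕ) (hp : 2 ≤ p) (θ : ℝ) (h0 : 0 < θ) (h1 : θ < 1) (B : ℕ) :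
    ∃ j e : ℕ, B < p ^ j ∧ B ≤ j ∧ B ≤ e ∧
      ((p ^ e : ℕ) : ℝ) ≤ ((p ^ j * p ^ e : ℕ) : ℝ) ^ θ ∧
      ((p ^ j * p ^ e : ℕ) : ℝ) ^ θ ≤ p * ((p ^ e : ℕ) : ℝ) := by
  obtain ⟨L, hL⟩ := exists_nat_ge (max ((B + 1 : ℝ) / (1 - θ)) ((B + 1 : ℝ) / θ))
  have hL1 : (B + 1 : ℝ) ≤ (1 - θ) * L := by
    have := (le_max_left _ _).trans hL
    rwa [div_le_iff₀ (by linarith), mul_comm] at this
  have hL2 : (B + 1 : ℝ) ≤ θ * L := by
    have := (le_max_right _ _).trans hL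
    rwa [div_le_iff₀ h0, mul_comm] at this
  set e := ⌊θ * L⌋₊ with he
  have he1 : (e : ℝ) ≤ θ * L := Nat.floor_le (by positivity)
  have he2 : θ * L < e + 1 := Nat.lt_floor_add_one _
  have heL : e ≤ L := by
    have : (e : ℝ) ≤ L := he1.trans (by
      have : (0 : ℝ) ≤ L := Nat.cast_nonneg _
      nlinarith)
    exact_mod_cast this
  have hj : B ≤ L - e := by
    have : (B : ℝ) ≤ L - e := by nlinarith
    have h2 : (B : ℝ) + e ≤ L := by linarith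
    have h3 : B + e ≤ L := by exact_mod_cast h2
    omega
  have hpp : (1 : ℝ) ≤ p := by exact_mod_cast (by omega : 1 ≤ p)
  have hp0 : (0 : ℝ) ≤ p := by linarith
  have hprod : p ^ (L - e) * p ^ e = p ^ L := by
    rw [← pow_add]; congr 1; omega
  have hrp : ((p ^ L : ℕ) : ℝ) ^ θ = (p : ℝ) ^ (θ * L) := by
    rw [Nat.cast_pow, ← Real.rpow_natCast, ← Real.rpow_mul hp0, mul_comm]
  refine ⟨L - e, e, lt_of_le_of_lt hj (Nat.lt_pow_self (by omega)), hj, ?_, ?_, ?_⟩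
  · have : (B : ℝ) < e + 1 := by linarith
    have h2 : B < e + 1 := by exact_mod_cast this
    omega
  · rw [hprod, hrp, Nat.cast_pow, ← Real.rpow_natCast]
    exact Real.rpow_le_rpow_of_exponent_le hpp he1
  · rw [hprod, hrp, Nat.cast_pow, ← Real.rpow_natCast]
    have : (p : ℝ) * (p : ℝ) ^ (e : ℝ) = (p : ℝ) ^ ((e : ℝ) + 1) := by
      rw [Real.rpow_add (by linarith), Real.rpow_one, mul_comm]
    rw [this]
    exact Real.rpow_le_rpow_of_exponent_le hpp he2.le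

/-- The exponents `θ_l`, strictly between `0` and `1`, tending to `θ`. -/
noncomputable def th (θ : ℝ) (l : ℕ) : ℝ := (θ * l + 1 / 2) / (l + 1)

lemma th_pos {θ : ℝ} (h : 0 ≤ θ) (l : ℕ) : 0 < th θ l := by
  unfold th; positivity

lemma th_lt_one {θ : ℝ} (h : θ ≤ 1) (l : ℕ) : th θ l < 1 := by
  unfold th
  rw [div_lt_one (by positivity)]
  have : (0 : ℝ) ≤ l := Nat.cast_nonneg _
  nlinarith

lemma th_tendsto (θ : ℝ) : Tendsto (th θ) atTop (nhds θ) := by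
  have h1 : th θ = fun l : ℕ => θ + (1 / 2 - θ) * (1 / ((l : ℝ) + 1)) := by
    funext l
    unfold th
    have : (l : ℝ) + 1 ≠ 0 := by positivity
    field_simp
    ring
  rw [h1]
  have h2 := (tendsto_one_div_add_atTop_nhds_zero_nat (𝕜 := ℝ)).const_mul (1 / 2 - θ)
  have h3 := h2.const_add θ
  simpa using h3

/-! ### The two inequalities -/

/-- For `s ≥ q P` the factor `P` is at most `s^θ`. -/
lemma factor_large {q P s : ℕ} {θ : ℝ} (h0 : 0 ≤ θ) (hP : ((P : ℕ) : ℝ) ≤ ((q * P : ℕ) : ℝ) ^ θ)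
    (hs : q * P ≤ s) : (P : ℝ) ≤ (s : ℝ) ^ θ :=
  hP.trans (Real.rpow_le_rpow (Nat.cast_nonneg _) (by exact_mod_cast hs) h0)

/-- For `s < q P` the quotient `s / q` is at most `s^θ`. -/
lemma factor_small {q P s : ℕ} {θ : ℝ} (h1 : θ ≤ 1) (hq : 0 < q) (hP0 : 0 < P)
    (hs0 : 0 < s) (hP : ((P : ℕ) : ℝ) ≤ ((q * P : ℕ) : ℝ) ^ θ)
    (hs : s ≤ q * P) : (s : ℝ) / q ≤ (s : ℝ) ^ θ := by
  have hq' : (0 : ℝ) < q := by exact_mod_cast hq
  have hs' : (0 : ℝ) < s := by exact_mod_cast hs0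
  have hqP : (0 : ℝ) < ((q * P : ℕ) : ℝ) := by exact_mod_cast Nat.mul_pos hq hP0
  have hPr : (0 : ℝ) < P := by exact_mod_cast hP0
  -- `s^(1-θ) ≤ (qP)^(1-θ) ≤ q`
  have e1 : (s : ℝ) ^ (1 - θ) ≤ ((q * P : ℕ) : ℝ) ^ (1 - θ) :=
    Real.rpow_le_rpow hs'.le (by exact_mod_cast hs) (by linarith)
  have e2 : ((q * P : ℕ) : ℝ) ^ (1 - θ) ≤ q := by
    rw [Real.rpow_sub hqP, Real.rpow_one, div_le_iff₀ (Real.rpow_pos_of_pos hqP _)]
    rw [Nat.cast_mul] at hP ⊢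
    exact mul_le_mul_of_nonneg_left hP hq'.le
  have e3 : (s : ℝ) = (s : ℝ) ^ θ * (s : ℝ) ^ (1 - θ) := by
    rw [← Real.rpow_add hs']; norm_num
  rw [div_le_iff₀ hq']
  calc (s : ℝ) = (s : ℝ) ^ θ * (s : ℝ) ^ (1 - θ) := e3
    _ ≤ (s : ℝ) ^ θ * q := mul_le_mul_of_nonneg_left (e1.trans e2) (Real.rpow_nonneg hs'.le _)

/-- The combination of the two upper bounds. -/
lemma upper_combine {n q P s g : ℕ} {θ : ℝ} (h0 : 0 ≤ θ) (h1 : θ ≤ 1) (hq : 0 < q) (hP0 : 0 < P)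
    (hqs : q ≤ s) (hP : ((P : ℕ) : ℝ) ≤ ((q * P : ℕ) : ℝ) ^ θ)
    (hg1 : g ≤ 2 * (2 * s + 1) ^ n + (s + 1) ^ n * (s / q + 1) ^ n)
    (hg2 : g ≤ 2 * (2 * s + 1) ^ n + P ^ n * (2 * s + 1) ^ n) :
    (g : ℝ) ≤ 3 * 4 ^ n * (s : ℝ) ^ (n * (1 + θ)) := by
  have hs0 : 0 < s := by omega
  have hs' : (1 : ℝ) ≤ s := by exact_mod_cast hs0
  have hspos : (0 : ℝ) < s := by linarith
  have hq' : (0 : ℝ) < q := by exact_mod_cast hq
  set y := (s : ℝ) ^ θ with hy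
  have hy1 : 1 ≤ y := Real.one_le_rpow hs' h0
  have epow : (s : ℝ) ^ (n * (1 + θ)) = (s * y) ^ n := by
    rw [mul_comm (n : ℝ), Real.rpow_mul hspos.le, Real.rpow_natCast, Real.rpow_add hspos,
      Real.rpow_one]
  rw [epow]
  have h2s : ((2 * s + 1 : ℕ) : ℝ) ≤ 3 * s := by push_cast; linarith
  have hA : ((2 * (2 * s + 1) ^ n : ℕ) : ℝ) ≤ 2 * (4 * (s * y)) ^ n := by
    rw [Nat.cast_mul, Nat.cast_pow, Nat.cast_ofNat]
    have : ((2 * s + 1 : ℕ) : ℝ) ≤ 4 * (s * y) := by nlinarith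
    gcongr
  have hB : (g : ℝ) ≤ 2 * (4 * (s * y)) ^ n + (4 * (s * y)) ^ n := by
    rcases le_or_gt (q * P) s with h | h
    · have hPy := factor_large h0 hP h
      have h3 : (g : ℝ) ≤ ((2 * (2 * s + 1) ^ n : ℕ) : ℝ) + ((P ^ n * (2 * s + 1) ^ n : ℕ) : ℝ) := by
        exact_mod_cast hg2
      refine h3.trans (add_le_add hA ?_)
      rw [Nat.cast_mul, Nat.cast_pow, Nat.cast_pow, ← mul_pow]
      have : (P : ℝ) * ((2 * s + 1 : ℕ) : ℝ) ≤ 4 * (s * y) := by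
        calc (P : ℝ) * ((2 * s + 1 : ℕ) : ℝ) ≤ y * (3 * s) :=
              mul_le_mul hPy h2s (Nat.cast_nonneg _) (by linarith)
          _ ≤ 4 * (s * y) := by nlinarith
      gcongr
    · have hsy := factor_small h1 hq hP0 hs0 hP h.le
      have h3 : (g : ℝ) ≤ ((2 * (2 * s + 1) ^ n : ℕ) : ℝ) +
          (((s + 1) ^ n * (s / q + 1) ^ n : ℕ) : ℝ) := by
        exact_mod_cast hg1
      refine h3.trans (add_le_add hA ?_)
      rw [Nat.cast_mul, Nat.cast_pow, Nat.cast_pow, ← mul_pow]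
      have h4 : ((s / q + 1 : ℕ) : ℝ) ≤ 2 * y := by
        push_cast
        have h5 : ((s / q : ℕ) : ℝ) ≤ (s : ℝ) / q := Nat.cast_div_le
        linarith
      have : ((s + 1 : ℕ) : ℝ) * ((s / q + 1 : ℕ) : ℝ) ≤ 4 * (s * y) := by
        have h6 : ((s + 1 : ℕ) : ℝ) ≤ 2 * s := by push_cast; linarith
        calc ((s + 1 : ℕ) : ℝ) * ((s / q + 1 : ℕ) : ℝ) ≤ (2 * s) * (2 * y) :=
              mul_le_mul h6 h4 (Nat.cast_nonneg _) (by linarith)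
          _ = 4 * (s * y) := by ring
      gcongr
  calc (g : ℝ) ≤ 2 * (4 * (s * y)) ^ n + (4 * (s * y)) ^ n := hB
    _ = 3 * 4 ^ n * (s * y) ^ n := by rw [mul_pow]; ring

/-- The lower bound in terms of `s = 3 n q P`. -/
lemma lower_combine {n q P g p : ℕ} {θ : ℝ} (hn : 0 < n) (h1 : θ ≤ 1) (hp : 0 < p)
    (hq : 0 < q) (hP2 : 2 ≤ P) (hP : ((q * P : ℕ) : ℝ) ^ θ ≤ p * (P : ℝ))
    (hg : (q * P) ^ n * (P ^ n - 1) ≤ g) :
    (1 / (2 * (p : ℝ) ^ n * (3 * n : ℝ) ^ (2 * n))) * ((3 * n * (q * P) : ℕ) : ℝ) ^ (n * (1 + θ)) ≤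
      g := by
  have hPn : 2 ≤ P ^ n := hP2.trans (Nat.le_self_pow hn.ne' P)
  have hP0 : 0 < P := by omega
  set z : ℝ := ((q * P : ℕ) : ℝ) with hz
  have hz1 : 1 ≤ z := by
    rw [hz]; exact_mod_cast Nat.mul_pos hq hP0
  have hz0 : 0 < z := by linarith
  have hp' : (0 : ℝ) < p := by exact_mod_cast hp
  have hn' : (1 : ℝ) ≤ n := by exact_mod_cast hn
  have hs : ((3 * n * (q * P) : ℕ) : ℝ) = (3 * n) * z := by rw [hz]; push_cast; ring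
  rw [hs]
  have e1 : ((3 * n : ℝ) * z) ^ (n * (1 + θ)) = (3 * n : ℝ) ^ (n * (1 + θ)) * (z * z ^ θ) ^ n := by
    rw [Real.mul_rpow (by positivity) hz0.le]
    congr 1
    rw [mul_comm (n : ℝ), Real.rpow_mul hz0.le, Real.rpow_natCast, Real.rpow_add hz0,
      Real.rpow_one]
  have e2 : (3 * n : ℝ) ^ (n * (1 + θ)) ≤ (3 * n : ℝ) ^ (2 * n) := by
    rw [← Real.rpow_natCast (3 * n : ℝ) (2 * n)]
    apply Real.rpow_le_rpow_of_exponent_le (by linarith)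
    push_cast
    nlinarith
  have e3 : (z * z ^ θ) ^ n ≤ (p : ℝ) ^ n * (z ^ n * (P : ℝ) ^ n) := by
    rw [← mul_pow, ← mul_pow]
    apply pow_le_pow_left₀ (by positivity)
    calc z * z ^ θ ≤ z * (p * P) := mul_le_mul_of_nonneg_left hP hz0.le
      _ = p * (z * P) := by ring
  have e4 : z ^ n * (P : ℝ) ^ n ≤ 2 * g := by
    have h2 : (q * P) ^ n * P ^ n ≤ 2 * g := by
      calc (q * P) ^ n * P ^ n ≤ (q * P) ^ n * (2 * (P ^ n - 1)) :=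
            Nat.mul_le_mul_left _ (by omega)
        _ = 2 * ((q * P) ^ n * (P ^ n - 1)) := by ring
        _ ≤ 2 * g := Nat.mul_le_mul_left _ hg
    rw [hz]
    exact_mod_cast h2
  rw [e1, one_div, inv_mul_le_iff₀ (by positivity)]
  calc (3 * n : ℝ) ^ (n * (1 + θ)) * (z * z ^ θ) ^ n
      ≤ (3 * n : ℝ) ^ (2 * n) * ((p : ℝ) ^ n * (z ^ n * (P : ℝ) ^ n)) := by
        apply mul_le_mul e2 e3 (by positivity) (by positivity)
    _ ≤ (3 * n : ℝ) ^ (2 * n) * ((p : ℝ) ^ n * (2 * g)) := by gcongr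
    _ = 2 * (p : ℝ) ^ n * (3 * n : ℝ) ^ (2 * n) * g := by ring

end Pool.Agent.KS6_42.DX
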