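import Pool.Agent.KS6_42.DX.Seq
import Pool.Agent.KS6_42.DX.Grow

/-!
# The extension of prescribed dimension
-/

set_option autoImplicit false

set_option linter.unusedSectionVars false

universe u v

namespace Pool.Agent.KS6_42.DX

open MvPolynomial Filter

section choice

variable (p n : ℕ) [hp : Fact p.Prime] [NeZero n] (ϑ : ℕ → ℝ) (h0 : ∀ l, 0 < ϑ l)
  (h1 : ∀ l, ϑ l < 1)

/-- The next pair of exponents. -/
noncomputable def nx (l B : ℕ) : ℕ × ℕ :=
  let h := exists_exponents p hp.out.two_le (ϑ l) (h0 l) (h1 l) (max B (l + 1))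
  (h.choose, h.choose_spec.choose)

lemma nx_spec (l B : ℕ) : B < p ^ (nx p ϑ h0 h1 l B).1 ∧ l ≤ (nx p ϑ h0 h1 l B).1 ∧
    l + 1 ≤ (nx p ϑ h0 h1 l B).2 ∧
    ((p ^ (nx p ϑ h0 h1 l B).2 : ℕ) : ℝ) ≤
      ((p ^ (nx p ϑ h0 h1 l B).1 * p ^ (nx p ϑ h0 h1 l B).2 : ℕ) : ℝ) ^ ϑ l ∧
    ((p ^ (nx p ϑ h0 h1 l B).1 * p ^ (nx p ϑ h0 h1 l B).2 : ℕ) : ℝ) ^ ϑ l ≤
      p * ((p ^ (nx p ϑ h0 h1 l B).2 : ℕ) : ℝ) := by
  have h := (exists_exponents p hp.out.two_le (ϑ l) (h0 l) (h1 l)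
    (max B (l + 1))).choose_spec.choose_spec
  obtain ⟨a1, a2, a3, a4, a5⟩ := h
  exact ⟨lt_of_le_of_lt (le_max_left _ _) a1, (Nat.le_succ l).trans ((le_max_right _ _).trans a2),
    (le_max_right _ _).trans a3, a4, a5⟩

/-- The bounds. -/
noncomputable def Bs : ℕ → ℕ
  | 0 => 0
  | l + 1 => max (Bs l) (max
      ((UU n (p ^ (nx p ϑ h0 h1 l (Bs l)).2)).sup fun u =>
        deg (p ^ (nx p ϑ h0 h1 l (Bs l)).1 • mu (p ^ (nx p ϑ h0 h1 l (Bs l)).2) u))
      (p ^ (nx p ϑ h0 h1 l (Bs l)).1 * p ^ (nx p ϑ h0 h1 l (Bs l)).2))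

lemma Bs_mono : Monotone (Bs p n ϑ h0 h1) :=
  monotone_nat_of_le_succ fun l => by rw [Bs]; exact le_max_left _ _

include h0 h1 in
/-- **Existence of the sequences of exponents.** -/
theorem exists_seq : ∃ j e : ℕ → ℕ, Good p n j e ∧ (∀ l, l + 1 ≤ e l) ∧
    (∀ l, ((p ^ e l : ℕ) : ℝ) ≤ ((p ^ j l * p ^ e l : ℕ) : ℝ) ^ ϑ l) ∧
    ∀ l, ((p ^ j l * p ^ e l : ℕ) : ℝ) ^ ϑ l ≤ p * ((p ^ e l : ℕ) : ℝ) := by
  let j : ℕ → ℕ := fun l => (nx p ϑ h0 h1 l (Bs p n ϑ h0 h1 l)).1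
  let e : ℕ → ℕ := fun l => (nx p ϑ h0 h1 l (Bs p n ϑ h0 h1 l)).2
  have hs : ∀ l, _ := fun l => nx_spec p ϑ h0 h1 l (Bs p n ϑ h0 h1 l)
  refine ⟨j, e, ⟨?_, ?_, fun l => (hs l).2.1⟩, fun l => (hs l).2.2.1, fun l => (hs l).2.2.2.1,
    fun l => (hs l).2.2.2.2⟩
  · intro l l' hll' u hu
    refine lt_of_le_of_lt ?_ (hs l').1
    refine le_trans ?_ (Bs_mono p n ϑ h0 h1 (show l + 1 ≤ l' from hll'))
    rw [Bs]
    refine le_trans ?_ (le_max_right _ _)
    refine le_trans ?_ (le_max_left _ _)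
    exact Finset.le_sup (f := fun u => deg (p ^ j l • mu (p ^ e l) u)) hu
  · intro l l' hll'
    refine le_trans ?_ (hs l').1.le
    refine le_trans ?_ (Bs_mono p n ϑ h0 h1 (show l + 1 ≤ l' from hll'))
    rw [Bs]
    refine le_trans ?_ (le_max_right _ _)
    exact le_max_right _ _

end choice

section growth

variable (p : ℕ) [hp : Fact p.Prime] {n : ℕ} [NeZero n] {k : Type u} [Field k] [CharP k p]
  {j e : ℕ → ℕ} (hg : Good p n j e) (hf : EvComm (ff k p j e : ℕ → Rn k n))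
  {θ : ℝ}

include hg

lemma lt_q (l : ℕ) : l < p ^ j l :=
  lt_of_le_of_lt (hg.jge l) (Nat.lt_pow_self hp.out.one_lt)

/-- The block at scale `s`. -/
lemma exists_block (L0 s : ℕ) (hs : p ^ j L0 ≤ s) :
    ∃ l, L0 ≤ l ∧ p ^ j l ≤ s ∧ s < p ^ j (l + 1) := by
  classical
  have hb : ∀ l, p ^ j l ≤ s → l ≤ s := fun l hl => ((lt_q p hg l).trans_le hl).le
  refine ⟨Nat.findGreatest (fun l => p ^ j l ≤ s) s, Nat.le_findGreatest (hb _ hs) hs,
    Nat.findGreatest_spec (P := fun l => p ^ j l ≤ s) (hb _ hs) hs, ?_⟩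
  by_contra h
  push Not at h
  have := Nat.le_findGreatest (P := fun l => p ^ j l ≤ s) (hb _ h) h
  omega

theorem ub (hθ0 : 0 ≤ θ) (hθ1 : θ ≤ 1)
    (hP : ∀ l, ((p ^ e l : ℕ) : ℝ) ≤ ((p ^ j l * p ^ e l : ℕ) : ℝ) ^ th θ l) :
    UB (fun s => (Module.finrank k (filt k n (gens hf) s) : ℝ)) (n * (1 + θ)) := by
  intro ρ hρ
  have hn : (0 : ℝ) < n := by
    have := NeZero.pos n
    exact_mod_cast this
  have hp0 : 0 < p := hp.out.pos
  set ρ' := (n * (1 + θ) + ρ) / 2 with hρ'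
  have ht : Tendsto (fun l => (n : ℝ) * (1 + th θ l)) atTop (nhds (n * (1 + θ))) :=
    ((th_tendsto θ).const_add 1).const_mul (n : ℝ)
  obtain ⟨L0, hL0⟩ := eventually_atTop.1 (ht.eventually_le_const (show n * (1 + θ) < ρ' by linarith))
  filter_upwards [ev_le (3 * 4 ^ n) ρ' ρ (by linarith), eventually_ge_atTop (p ^ j L0)] with s h1 h2
  obtain ⟨l, hl, hl1, hl2⟩ := exists_block p hg L0 s h2
  have hs1 : (1 : ℝ) ≤ s := by
    have : 1 ≤ s := (Nat.one_le_pow _ _ hp0).trans hl1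
    exact_mod_cast this
  refine lt_of_le_of_lt ?_ h1
  refine (upper_combine (th_pos hθ0 l).le (th_lt_one hθ1 l).le (pow_pos hp0 _) (pow_pos hp0 _) hl1
    (hP l) (upper1 p hg hf l s hl1 hl2) (upper2 p hg hf l s hl1 hl2)).trans ?_
  apply mul_le_mul_of_nonneg_left _ (by positivity)
  exact Real.rpow_le_rpow_of_exponent_le hs1 (hL0 l hl)

theorem lb (hθ1 : θ ≤ 1) (he : ∀ l, l + 1 ≤ e l)
    (hP : ∀ l, ((p ^ j l * p ^ e l : ℕ) : ℝ) ^ th θ l ≤ p * ((p ^ e l : ℕ) : ℝ)) :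
    LB (fun s => (Module.finrank k (filt k n (gens hf) s) : ℝ)) (n * (1 + θ)) := by
  intro ρ hρ
  have hn0 : 0 < n := NeZero.pos n
  have hn : (0 : ℝ) < n := by exact_mod_cast hn0
  have hp0 : 0 < p := hp.out.pos
  set ρ' := (n * (1 + θ) + ρ) / 2 with hρ'
  have ht : Tendsto (fun l => (n : ℝ) * (1 + th θ l)) atTop (nhds (n * (1 + θ))) :=
    ((th_tendsto θ).const_add 1).const_mul (n : ℝ)
  have hL0 := ht.eventually_const_le (show ρ' < n * (1 + θ) by linarith)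
  set c : ℝ := 1 / (2 * (p : ℝ) ^ n * (3 * n : ℝ) ^ (2 * n)) with hc
  have hp' : (0 : ℝ) < p := by exact_mod_cast hp0
  have hc0 : 0 < c := by positivity
  have hs : Tendsto (fun l => 3 * n * (p ^ j l * p ^ e l)) atTop atTop := by
    refine tendsto_atTop_mono (fun l => ?_) tendsto_id
    have h1 := lt_q p hg l
    have h2 : 1 ≤ p ^ e l := Nat.one_le_pow _ _ hp0
    calc id l ≤ p ^ j l := h1.le
      _ ≤ p ^ j l * p ^ e l := Nat.le_mul_of_pos_right _ h2
      _ ≤ 3 * n * (p ^ j l * p ^ e l) := Nat.le_mul_of_pos_left _ (by positivity)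
  have hev : ∀ᶠ l in atTop, (((3 * n * (p ^ j l * p ^ e l) : ℕ) : ℝ)) ^ ρ ≤
      (Module.finrank k (filt k n (gens hf) (3 * n * (p ^ j l * p ^ e l))) : ℝ) := by
    filter_upwards [hL0, hs.eventually (ev_le (1 / c) ρ ρ' (by linarith)),
      hs.eventually (eventually_ge_atTop 1)] with l h1 h2 h3
    have hP2 : 2 ≤ p ^ e l := by
      calc 2 ≤ p := hp.out.two_le
        _ = p ^ 1 := (pow_one p).symm
        _ ≤ p ^ e l := Nat.pow_le_pow_right hp0 (by have := he l; omega)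
    have h4 := lower_combine hn0 (th_lt_one hθ1 l).le hp0 (pow_pos hp0 (j l)) hP2 (hP l)
      (lower p hg hf l)
    refine le_trans ?_ h4
    have h5 : (1 : ℝ) ≤ ((3 * n * (p ^ j l * p ^ e l) : ℕ) : ℝ) := by exact_mod_cast h3
    have h6 : ((3 * n * (p ^ j l * p ^ e l) : ℕ) : ℝ) ^ ρ' ≤
        ((3 * n * (p ^ j l * p ^ e l) : ℕ) : ℝ) ^ (n * (1 + th θ l)) :=
      Real.rpow_le_rpow_of_exponent_le h5 h1
    have h7 : ((3 * n * (p ^ j l * p ^ e l) : ℕ) : ℝ) ^ ρ ≤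
        c * ((3 * n * (p ^ j l * p ^ e l) : ℕ) : ℝ) ^ ρ' := by
      have h8 := h2.le
      rw [one_div, inv_mul_le_iff₀ hc0] at h8
      exact h8
    exact h7.trans (mul_le_mul_of_nonneg_left h6 hc0.le)
  exact (hs.frequently (p := fun s : ℕ => (s : ℝ) ^ ρ ≤
    (Module.finrank k (filt k n (gens hf) s) : ℝ)) hev.frequently)

/-- **The extension is not holonomic.** -/
theorem not_holonomic (he : ∀ l, l + 1 ≤ e l) : ¬ IsHolonomic k n (MM hf) := by
  rintro ⟨G, hG, C, hC⟩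
  have hn0 : 0 < n := NeZero.pos n
  have hp0 : 0 < p := hp.out.pos
  have hmono : Monotone G := monotone_nat_of_le_succ hG.mono
  obtain ⟨c1, hc1⟩ := hG.exhaustive (mk hf 1 0)
  obtain ⟨c2, hc2⟩ := hG.exhaustive (mk hf 0 1)
  set c := max c1 c2 with hc
  have hgens : gens hf ⊆ G c := by
    rintro m (rfl | rfl)
    · exact hmono (le_max_left _ _) hc1
    · exact hmono (le_max_right _ _) hc2
  -- choose a large block
  set l := C * (3 * n + c) ^ n + 1 with hl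
  set q := p ^ j l with hq
  set P := p ^ e l with hP
  have hq0 : 0 < q := pow_pos hp0 _
  have hP0 : 0 < P := pow_pos hp0 _
  have hle := filt_le_of_kfil hG hgens (3 * n * (q * P))
  have hlow := lower (k := k) p hg hf l
  have hfd : FiniteDimensional k (filt k n (gens hf) (3 * n * (q * P))) := by
    obtain ⟨S, hS⟩ := exists_gensF hf
    rw [← hS]; exact finite_filt _ _
  have h1 : Module.rank k (filt k n (gens hf) (3 * n * (q * P))) ≤
      ((C * (3 * n * (q * P) + c) ^ n : ℕ) : Cardinal) :=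
    (Submodule.rank_mono hle).trans (hC _ (by
      have : 0 < 3 * n * (q * P) := by positivity
      omega))
  rw [← Module.finrank_eq_rank] at h1
  have h2 : Module.finrank k (filt k n (gens hf) (3 * n * (q * P))) ≤
      C * (3 * n * (q * P) + c) ^ n := by exact_mod_cast h1
  have h3 : (q * P) ^ n * (P ^ n - 1) ≤ C * (3 * n * (q * P) + c) ^ n := hlow.trans h2
  have hqP : 1 ≤ q * P := Nat.mul_pos hq0 hP0
  have h4 : C * (3 * n * (q * P) + c) ^ n ≤ (q * P) ^ n * (C * (3 * n + c) ^ n) := by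
    have : 3 * n * (q * P) + c ≤ (q * P) * (3 * n + c) := by nlinarith
    calc C * (3 * n * (q * P) + c) ^ n ≤ C * ((q * P) * (3 * n + c)) ^ n :=
          Nat.mul_le_mul_left _ (Nat.pow_le_pow_left this n)
      _ = (q * P) ^ n * (C * (3 * n + c) ^ n) := by rw [mul_pow]; ring
  have h5 : P ^ n - 1 ≤ C * (3 * n + c) ^ n :=
    Nat.le_of_mul_le_mul_left (h3.trans h4) (pow_pos hqP n)
  have h6 : l < P := lt_of_le_of_lt ((Nat.le_succ l).trans (he l)) (Nat.lt_pow_self hp.out.one_lt)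
  have h7 : P ≤ P ^ n := Nat.le_self_pow hn0.ne' P
  omega

end growth

section final

variable (p : ℕ) [hp : Fact p.Prime] {n : ℕ} [NeZero n] {k : Type u} [Field k] [CharP k p]
  {M : Type v} [AddCommGroup M] [Module k M] [Module (DD k n) M] [IsScalarTower k (DD k n) M]

/-- The dimension does not depend on the generating set. -/
theorem bavulaDim_eq {T : Finset M} (hT : Submodule.span (DD k n) (T : Set M) = ⊤) {r : ℝ}
    (hr : 0 < r) (hU : UB (fun s => (Module.finrank k (filt k n (T : Set M) s) : ℝ)) r)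
    (hL : LB (fun s => (Module.finrank k (filt k n (T : Set M) s) : ℝ)) r)
    {S : Finset M} (hS : Submodule.span (DD k n) (S : Set M) = ⊤) :
    bavulaDim k n (S : Set M) = r := by
  obtain ⟨c, hc⟩ := exists_subset_filt (k := k) (n := n) hT S
  obtain ⟨c', hc'⟩ := exists_subset_filt (k := k) (n := n) hS T
  have h1 : UB (fun s => (Module.finrank k (filt k n (S : Set M) s) : ℝ)) r := by
    refine hU.shift hr.le c fun s => ?_
    have := finite_filt (k := k) (n := n) T (s + c)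
    exact_mod_cast Submodule.finrank_mono (filt_le_filt hc s)
  have h2 : LB (fun s => (Module.finrank k (filt k n (S : Set M) s) : ℝ)) r := by
    refine hL.shift hr c' fun s => ?_
    have := finite_filt (k := k) (n := n) S (s + c')
    exact_mod_cast Submodule.finrank_mono (filt_le_filt hc' s)
  exact sInf_eq h1 h2

end final

end Pool.Agent.KS6_42.DX
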