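import Mathlib

/-!
# Binomial coefficients modulo a prime
-/

set_option autoImplicit false

namespace Pool.Agent.KS6_42.DX

variable (p : ℕ) [hp : Fact p.Prime] {k : Type*} [Field k] [CharP k p]

omit hp in
lemma cast_eq_of_modEq {a b : ℕ} (h : a ≡ b [MOD p]) : (a : k) = (b : k) :=
  (CharP.natCast_eq_natCast k p).2 h

lemma choose_cast_lucas (a b : ℕ) : ((Nat.choose a b : ℕ) : k) =
    (Nat.choose (a % p) (b % p) : k) * (Nat.choose (a / p) (b / p) : k) := by
  have := cast_eq_of_modEq (k := k) p (Choose.choose_modEq_choose_mod_mul_choose_div_nat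
    (n := a) (k := b) (p := p))
  rw [this, Nat.cast_mul]

/-- `binom (p^e m + v) t = binom v t` for `t < p^e`. -/
lemma choose_add_lt (e m v t : ℕ) (ht : t < p ^ e) :
    ((Nat.choose (p ^ e * m + v) t : ℕ) : k) = (Nat.choose v t : k) := by
  have hp0 : 0 < p := hp.out.pos
  induction e generalizing v t with
  | zero =>
    rw [pow_zero, Nat.lt_one_iff] at ht
    subst ht
    simp
  | succ e ih =>
    rw [choose_cast_lucas p, choose_cast_lucas p v t]
    have h1 : (p ^ (e + 1) * m + v) % p = v % p := by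
      rw [pow_succ, show p ^ e * p * m + v = v + p * (p ^ e * m) by ring, Nat.add_mul_mod_self_left]
    have h2 : (p ^ (e + 1) * m + v) / p = p ^ e * m + v / p := by
      rw [pow_succ, show p ^ e * p * m + v = v + p * (p ^ e * m) by ring,
        Nat.add_mul_div_left _ _ hp0]
      ring
    rw [h1, h2, ih (v / p) (t / p)]
    rw [Nat.div_lt_iff_lt_mul hp0, ← pow_succ]
    exact ht

/-- `binom (p^e m) t = 0` for `0 < t < p^e`. -/
lemma choose_mul_lt (e m t : ℕ) (h0 : 0 < t) (ht : t < p ^ e) :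
    ((Nat.choose (p ^ e * m) t : ℕ) : k) = 0 := by
  have := choose_add_lt (k := k) p e m 0 t ht
  rw [add_zero] at this
  rw [this, Nat.choose_eq_zero_of_lt h0, Nat.cast_zero]

/-- `binom (p^e m) (p^e t) = binom m t`. -/
lemma choose_mul_mul (e m t : ℕ) :
    ((Nat.choose (p ^ e * m) (p ^ e * t) : ℕ) : k) = (Nat.choose m t : k) := by
  have hp0 : 0 < p := hp.out.pos
  induction e with
  | zero => simp
  | succ e ih =>
    rw [choose_cast_lucas p]
    have h1 : ∀ a : ℕ, (p ^ (e + 1) * a) % p = 0 := fun a => by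
      rw [pow_succ, show p ^ e * p * a = p * (p ^ e * a) by ring, Nat.mul_mod_right]
    have h2 : ∀ a : ℕ, (p ^ (e + 1) * a) / p = p ^ e * a := fun a => by
      rw [pow_succ, show p ^ e * p * a = p * (p ^ e * a) by ring, Nat.mul_div_cancel_left _ hp0]
    rw [h1, h1, h2, h2, ih]
    simp

/-- `binom (p^e m) t = 0` if `p^e` does not divide `t`. -/
lemma choose_mul_not_dvd (e m t : ℕ) (h : ¬ p ^ e ∣ t) :
    ((Nat.choose (p ^ e * m) t : ℕ) : k) = 0 := by
  have hp0 : 0 < p := hp.out.pos
  induction e generalizing t with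
  | zero => exact absurd (by simp) h
  | succ e ih =>
    rw [choose_cast_lucas p]
    have h1 : (p ^ (e + 1) * m) % p = 0 := by
      rw [pow_succ, show p ^ e * p * m = p * (p ^ e * m) by ring, Nat.mul_mod_right]
    have h2 : (p ^ (e + 1) * m) / p = p ^ e * m := by
      rw [pow_succ, show p ^ e * p * m = p * (p ^ e * m) by ring, Nat.mul_div_cancel_left _ hp0]
    rw [h1, h2]
    by_cases hd : p ∣ t
    · obtain ⟨t', rfl⟩ := hd
      rw [Nat.mul_div_cancel_left _ hp0, ih, mul_zero]
      rintro ⟨c, rfl⟩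
      exact h ⟨c, by rw [pow_succ]; ring⟩
    · have : 0 < t % p := Nat.pos_of_ne_zero fun h0 => hd (Nat.dvd_of_mod_eq_zero h0)
      rw [Nat.choose_eq_zero_of_lt this, Nat.cast_zero, zero_mul]

end Pool.Agent.KS6_42.DX
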