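import Pool.Agent.KS6_42.DX.Defs
import Pool.Agent.KS6_42.DX.Num

/-!
# The operators on monomials
-/

set_option autoImplicit false

universe u v

namespace Pool.Agent.KS6_42.DX

open MvPolynomial

variable {k : Type u} [Field k] {n : ℕ}

lemma xm_zero : xm k (0 : Fin n →₀ ℕ) = 1 := rfl

lemma xm_mul (a b : Fin n →₀ ℕ) : xm k a * xm k b = xm k (a + b) := by
  rw [xm, xm, xm, monomial_mul, mul_one]

lemma xm_eq_basis (a : Fin n →₀ ℕ) : xm k a = basisMonomials (Fin n) k a := by
  rw [coe_basisMonomials]; rfl

lemma ext_xm {M : Type*} [AddCommMonoid M] [Module k M] {f g : Rn k n →ₗ[k] M}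
    (h : ∀ a, f (xm k a) = g (xm k a)) : f = g := by
  apply (basisMonomials (Fin n) k).ext
  intro s
  rw [← xm_eq_basis]
  exact h _

lemma linearIndependent_xm : LinearIndependent k (xm k : (Fin n →₀ ℕ) → Rn k n) := by
  have h := (basisMonomials (Fin n) k).linearIndependent
  rw [coe_basisMonomials] at h
  exact h

lemma span_xm : Submodule.span k (Set.range (xm k : (Fin n →₀ ℕ) → Rn k n)) = ⊤ := by
  have h := (basisMonomials (Fin n) k).span_eq
  rw [coe_basisMonomials] at h
  exact h

lemma divD_xm (i : Fin n) (t : ℕ) (v : Fin n →₀ ℕ) :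
    divD k n i t (xm k v) = (Nat.choose (v i) t : k) • xm k (v - Finsupp.single i t) := by
  rw [xm_eq_basis, divD, Module.Basis.constr_basis, divMono, xm, smul_monomial, smul_eq_mul,
    mul_one]

/-- The composition of the operators `D_{t_i,i}`. -/
noncomputable def Dt (t : Fin n →₀ ℕ) : EndR k n := (List.ofFn fun i => divD k n i (t i)).prod

/-- The product of the binomial coefficients. -/
def bi (v t : Fin n →₀ ℕ) : ℕ := ∏ i, Nat.choose (v i) (t i)

lemma bi_self (v : Fin n →₀ ℕ) : bi v v = 1 := by
  unfold bi; simp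

lemma bi_zero (v : Fin n →₀ ℕ) : bi v 0 = 1 := by
  unfold bi; simp

lemma bi_ne_zero {v t : Fin n →₀ ℕ} (h : bi v t ≠ 0) : t ≤ v := by
  intro i
  by_contra hlt
  apply h
  exact Finset.prod_eq_zero (Finset.mem_univ i) (Nat.choose_eq_zero_of_lt (by omega))

lemma list_xm (t : Fin n →₀ ℕ) (l : List (Fin n)) (hl : l.Nodup) (v : Fin n →₀ ℕ) :
    (l.map fun i => divD k n i (t i)).prod (xm k v) =
      ((l.map fun i => Nat.choose (v i) (t i)).prod : k) •
        xm k (v - (l.map fun i => Finsupp.single i (t i)).sum) := by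
  induction l with
  | nil =>
    show (1 : EndR k n) (xm k v) = _
    rw [Module.End.one_apply]
    simp
  | cons i l ih =>
    rw [List.nodup_cons] at hl
    have hi : ((l.map fun i => Finsupp.single i (t i)).sum) i = 0 := by
      have : ∀ l : List (Fin n), i ∉ l → ((l.map fun i => Finsupp.single i (t i)).sum) i = 0 := by
        intro l hl
        induction l with
        | nil => rfl
        | cons j l ih' =>
          rw [List.mem_cons, not_or] at hl
          rw [List.map_cons, List.sum_cons, Finsupp.add_apply, ih' hl.2, add_zero,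
            Finsupp.single_eq_of_ne hl.1]
      exact this l hl.1
    rw [List.map_cons, List.prod_cons, Module.End.mul_apply, ih hl.2, map_smul, divD_xm,
      Finsupp.tsub_apply, hi, tsub_zero, smul_smul]
    congr 1
    · rw [List.map_cons, List.prod_cons, Nat.cast_mul, mul_comm]
    · rw [List.map_cons, List.sum_cons, tsub_tsub, add_comm]

lemma Dt_xm (t v : Fin n →₀ ℕ) : Dt t (xm k v) = (bi v t : k) • xm k (v - t) := by
  unfold Dt
  rw [List.ofFn_eq_map, list_xm t _ (List.nodup_finRange n)]
  have h1 : ((List.finRange n).map fun i => Nat.choose (v i) (t i)).prod = bi v t := by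
    rw [bi, ← List.ofFn_eq_map, List.prod_ofFn]
  have h2 : ((List.finRange n).map fun i => Finsupp.single i (t i)).sum = t := by
    rw [← List.ofFn_eq_map, List.sum_ofFn]
    exact Finsupp.univ_sum_single t
  rw [h1, h2]

lemma coe_list_prod (l : List (Fin n)) (t : Fin n →₀ ℕ) :
    (((l.map fun i => (derD i (t i) : DD k n)).prod : DD k n) : EndR k n) =
      (l.map fun i => divD k n i (t i)).prod := by
  induction l with
  | nil => rfl
  | cons i l ih =>
    rw [List.map_cons, List.prod_cons, List.map_cons, List.prod_cons, ← ih]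
    rfl

/-- The product of the `D_{t_i,i}` as an element of `𝒟`. -/
noncomputable def derT (t : Fin n →₀ ℕ) : DD k n := (List.ofFn fun i => derD i (t i)).prod

lemma derT_coe (t : Fin n →₀ ℕ) : ((derT t : DD k n) : EndR k n) = Dt t := by
  unfold derT Dt
  rw [List.ofFn_eq_map, List.ofFn_eq_map, coe_list_prod]

lemma basisD_eq (a t : Fin n →₀ ℕ) : (basisD a t : DD k n) = mulD (xm k a) * derT t := rfl

lemma derT_zero : (derT 0 : DD k n) = 1 := by
  apply Subtype.ext
  rw [derT_coe]
  apply ext_xm
  intro v
  rw [Dt_xm, bi_zero, Nat.cast_one, one_smul, tsub_zero]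
  rfl

lemma mulD_smul (g f : Rn k n) : (mulD g : DD k n) • f = g * f := rfl

lemma dd_smul (d : DD k n) (f : Rn k n) : d • f = (d : EndR k n) f := rfl

lemma derT_smul (t : Fin n →₀ ℕ) (f : Rn k n) : (derT t : DD k n) • f = Dt t f := by
  rw [dd_smul, derT_coe]

lemma basisD_smul (a t : Fin n →₀ ℕ) (f : Rn k n) :
    (basisD a t : DD k n) • f = xm k a * Dt t f := by
  rw [basisD_eq, mul_smul, mulD_smul, derT_smul]

lemma basisD_smul_xm (a t v : Fin n →₀ ℕ) :
    (basisD a t : DD k n) • xm k v = (bi v t : k) • xm k (a + (v - t)) := by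
  rw [basisD_smul, Dt_xm, mul_smul_comm, xm_mul]

/-- Two elements of `𝒟` are equal if they agree on the monomials. -/
lemma dd_ext {d d' : DD k n} (h : ∀ v : Fin n →₀ ℕ, d • xm k v = d' • xm k v) : d = d' := by
  apply Subtype.ext
  exact ext_xm h

/-! ### The Bernstein filtration -/

/-- the total degree of an exponent -/
def deg (a : Fin n →₀ ℕ) : ℕ := ∑ i, a i

lemma deg_add (a b : Fin n →₀ ℕ) : deg (a + b) = deg a + deg b := by
  simp [deg, Finset.sum_add_distrib]

lemma deg_mono {a b : Fin n →₀ ℕ} (h : a ≤ b) : deg a ≤ deg b :=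
  Finset.sum_le_sum fun i _ => h i

lemma deg_single (i : Fin n) (t : ℕ) : deg (Finsupp.single i t) = t := by
  unfold deg
  rw [Finset.sum_eq_single i]
  · simp
  · intro j _ hj
    rw [Finsupp.single_eq_of_ne hj]
  · intro h; exact absurd (Finset.mem_univ i) h

lemma bern_eq (s : ℕ) : bern k n s =
    Submodule.span k {d | ∃ a t : Fin n →₀ ℕ, deg a + deg t ≤ s ∧ d = basisD a t} := rfl

lemma basisD_mem {a t : Fin n →₀ ℕ} {s : ℕ} (h : deg a + deg t ≤ s) :
    (basisD a t : DD k n) ∈ bern k n s :=
  Submodule.subset_span ⟨a, t, h, rfl⟩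

lemma bern_mono {s s' : ℕ} (h : s ≤ s') : bern k n s ≤ bern k n s' := by
  apply Submodule.span_mono
  rintro d ⟨a, t, h', rfl⟩
  exact ⟨a, t, h'.trans h, rfl⟩

/-- multiplication by a monomial -/
lemma mulD_mul_mem (b : Fin n →₀ ℕ) {s : ℕ} {d : DD k n} (hd : d ∈ bern k n s) :
    mulD (xm k b) * d ∈ bern k n (s + deg b) := by
  induction hd using Submodule.span_induction with
  | mem x hx =>
    obtain ⟨a, t, h, rfl⟩ := hx
    have e : (mulD (xm k b) * basisD a t : DD k n) = basisD (b + a) t := by
      apply dd_ext
      intro v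
      rw [mul_smul, basisD_smul_xm, mulD_smul, mul_smul_comm, xm_mul, basisD_smul_xm, add_assoc]
    rw [e]
    apply basisD_mem
    rw [deg_add]
    change deg a + deg t ≤ s at h
    omega
  | zero => rw [mul_zero]; exact Submodule.zero_mem _
  | add x y _ _ hx hy => rw [mul_add]; exact Submodule.add_mem _ hx hy
  | smul c x _ hx => rw [mul_smul_comm]; exact Submodule.smul_mem _ _ hx

lemma bi_add_single (v t : Fin n →₀ ℕ) (i : Fin n) (q : ℕ) :
    Nat.choose (t i + q) q * bi v (t + Finsupp.single i q) = bi v t * Nat.choose (v i - t i) q := by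
  unfold bi
  rw [← Finset.mul_prod_erase Finset.univ _ (Finset.mem_univ i),
    ← Finset.mul_prod_erase Finset.univ (fun j => Nat.choose (v j) (t j)) (Finset.mem_univ i)]
  have h1 : ∏ j ∈ Finset.univ.erase i, Nat.choose (v j) ((t + Finsupp.single i q) j) =
      ∏ j ∈ Finset.univ.erase i, Nat.choose (v j) (t j) := by
    refine Finset.prod_congr rfl fun j hj => ?_
    rw [Finsupp.add_apply, Finsupp.single_eq_of_ne (Finset.ne_of_mem_erase hj), add_zero]
  rw [h1, Finsupp.add_apply, Finsupp.single_eq_same]
  have h2 : Nat.choose (t i + q) q * Nat.choose (v i) (t i + q) =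
      Nat.choose (v i) (t i) * Nat.choose (v i - t i) q := by
    have h3 := Nat.choose_mul (n := v i) (Nat.le_add_right (t i) q)
    rw [Nat.add_sub_cancel_left, Nat.choose_symm_add] at h3
    rw [mul_comm, h3]
  rw [← mul_assoc, h2]
  ring

/-- the product of `D_{m,i}` and a basis element -/
lemma derD_mul_basisD (i : Fin n) (m : ℕ) (a t : Fin n →₀ ℕ) :
    (derD i m * basisD a t : DD k n) =
      ∑ q ∈ Finset.range (m + 1), if q ≤ a i then
        ((Nat.choose (a i) q * Nat.choose (t i + (m - q)) (m - q) : ℕ) : k) •
          basisD (a - Finsupp.single i q) (t + Finsupp.single i (m - q)) else 0 := by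
  apply dd_ext
  intro v
  have hL : (derD i m * basisD a t : DD k n) • xm k v =
      ((bi v t * Nat.choose (a i + (v i - t i)) m : ℕ) : k) •
        xm k (a + (v - t) - Finsupp.single i m) := by
    rw [mul_smul, basisD_smul_xm]
    show divD k n i m (_ • _) = _
    rw [map_smul, divD_xm, smul_smul, Nat.cast_mul, Finsupp.add_apply, Finsupp.tsub_apply]
  rw [hL, Finset.sum_smul, Nat.add_choose_eq, Finset.Nat.sum_antidiagonal_eq_sum_range_succ_mk,
    Finset.mul_sum, Nat.cast_sum, Finset.sum_smul]
  refine Finset.sum_congr rfl fun q hq => ?_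
  have hqm : q ≤ m := by rw [Finset.mem_range] at hq; omega
  simp only
  split_ifs with hqa
  · rw [smul_assoc, basisD_smul_xm, smul_smul, ← Nat.cast_mul]
    have e1 : Nat.choose (a i) q * Nat.choose (t i + (m - q)) (m - q) *
        bi v (t + Finsupp.single i (m - q)) =
        bi v t * (Nat.choose (a i) q * Nat.choose (v i - t i) (m - q)) := by
      rw [mul_assoc, bi_add_single]; ring
    rw [e1]
    by_cases h0 : bi v t * (Nat.choose (a i) q * Nat.choose (v i - t i) (m - q)) = 0
    · rw [h0, Nat.cast_zero, zero_smul, zero_smul]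
    · have h1 : m - q ≤ v i - t i := by
        by_contra hlt
        apply h0
        rw [Nat.choose_eq_zero_of_lt (show v i - t i < m - q by omega), mul_zero, mul_zero]
      congr 2
      ext j
      simp only [Finsupp.add_apply, Finsupp.tsub_apply]
      by_cases hj : j = i
      · subst hj
        rw [Finsupp.single_eq_same, Finsupp.single_eq_same, Finsupp.single_eq_same]
        omega
      · rw [Finsupp.single_eq_of_ne hj, Finsupp.single_eq_of_ne hj, Finsupp.single_eq_of_ne hj]
        simp
  · rw [zero_smul, Nat.choose_eq_zero_of_lt (show a i < q by omega), zero_mul, mul_zero,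
      Nat.cast_zero, zero_smul]

/-- multiplication by `D_{m,i}` -/
lemma derD_mul_mem (i : Fin n) (m : ℕ) {s : ℕ} {d : DD k n} (hd : d ∈ bern k n s) :
    derD i m * d ∈ bern k n (s + m) := by
  induction hd using Submodule.span_induction with
  | mem x hx =>
    obtain ⟨a, t, h, rfl⟩ := hx
    change deg a + deg t ≤ s at h
    rw [derD_mul_basisD]
    refine Submodule.sum_mem _ fun q hq => ?_
    rw [Finset.mem_range] at hq
    split_ifs with hqa
    · apply Submodule.smul_mem
      apply basisD_mem
      rw [deg_add, deg_single]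
      have : deg (a - Finsupp.single i q) ≤ deg a := deg_mono tsub_le_self
      omega
    · exact Submodule.zero_mem _
  | zero => rw [mul_zero]; exact Submodule.zero_mem _
  | add x y _ _ hx hy => rw [mul_add]; exact Submodule.add_mem _ hx hy
  | smul c x _ hx => rw [mul_smul_comm]; exact Submodule.smul_mem _ _ hx

lemma derT_mul_mem (t : Fin n →₀ ℕ) {s : ℕ} {d : DD k n} (hd : d ∈ bern k n s) :
    derT t * d ∈ bern k n (s + deg t) := by
  have key : ∀ l : List (Fin n), (l.map fun i => (derD i (t i) : DD k n)).prod * d ∈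
      bern k n (s + (l.map fun i => t i).sum) := by
    intro l
    induction l with
    | nil => simpa using hd
    | cons i l ih =>
      simp only [List.map_cons, List.prod_cons, List.sum_cons, mul_assoc]
      have := derD_mul_mem i (t i) ih
      rw [add_comm (t i), ← add_assoc]
      exact this
  have := key (List.finRange n)
  rw [← List.ofFn_eq_map, ← List.ofFn_eq_map, List.sum_ofFn] at this
  exact this

/-- **The Bernstein filtration is multiplicative.** -/
theorem bern_mul {s s' : ℕ} {d d' : DD k n} (hd : d ∈ bern k n s) (hd' : d' ∈ bern k n s') :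
    d * d' ∈ bern k n (s + s') := by
  induction hd using Submodule.span_induction with
  | mem x hx =>
    obtain ⟨a, t, h, rfl⟩ := hx
    change deg a + deg t ≤ s at h
    rw [basisD_eq, mul_assoc]
    exact bern_mono (by omega) (mulD_mul_mem a (derT_mul_mem t hd'))
  | zero => rw [zero_mul]; exact Submodule.zero_mem _
  | add x y _ _ hx hy => rw [add_mul]; exact Submodule.add_mem _ hx hy
  | smul c x _ hx => rw [smul_mul_assoc]; exact Submodule.smul_mem _ _ hx

lemma one_mem_bern : (1 : DD k n) ∈ bern k n 0 := by
  have : (1 : DD k n) = basisD 0 0 := by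
    rw [basisD_eq, derT_zero, mul_one]
    apply dd_ext
    intro v
    rw [mulD_smul, xm_zero, one_mul, one_smul]
  rw [this]
  exact basisD_mem (by simp [deg])

/-- **The Bernstein filtration exhausts `𝒟`.** -/
theorem exists_mem_bern (d : DD k n) : ∃ s, d ∈ bern k n s := by
  obtain ⟨d, hd⟩ := d
  induction hd using Algebra.adjoin_induction with
  | mem x hx =>
    rcases hx with ⟨f, rfl⟩ | ⟨⟨i, t⟩, rfl⟩
    · have hf : f ∈ Submodule.span k (Set.range (xm k : (Fin n →₀ ℕ) → Rn k n)) := by
        rw [span_xm]; trivial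
      have key : ∃ s, (mulD f : DD k n) ∈ bern k n s := by
        induction hf using Submodule.span_induction with
        | mem x hx =>
          obtain ⟨a, rfl⟩ := hx
          refine ⟨deg a, ?_⟩
          have := mulD_mul_mem a (one_mem_bern (k := k) (n := n))
          rw [mul_one, zero_add] at this
          exact this
        | zero =>
          refine ⟨0, ?_⟩
          have : (mulD 0 : DD k n) = 0 := by
            apply dd_ext
            intro v
            rw [mulD_smul, zero_mul, zero_smul]
          rw [this]; exact Submodule.zero_mem _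
        | add x y _ _ hx hy =>
          obtain ⟨s, hs⟩ := hx
          obtain ⟨s', hs'⟩ := hy
          refine ⟨max s s', ?_⟩
          have : (mulD (x + y) : DD k n) = mulD x + mulD y := by
            apply dd_ext
            intro v
            rw [mulD_smul, add_smul, mulD_smul, mulD_smul, add_mul]
          rw [this]
          exact Submodule.add_mem _ (bern_mono (le_max_left _ _) hs)
            (bern_mono (le_max_right _ _) hs')
        | smul c x _ hx =>
          obtain ⟨s, hs⟩ := hx
          refine ⟨s, ?_⟩
          have : (mulD (c • x) : DD k n) = c • mulD x := by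
            apply dd_ext
            intro v
            rw [mulD_smul, smul_assoc, mulD_smul, smul_mul_assoc]
          rw [this]
          exact Submodule.smul_mem _ _ hs
      exact key
    · refine ⟨t, ?_⟩
      have := derD_mul_mem i t (one_mem_bern (k := k) (n := n))
      rw [mul_one, zero_add] at this
      exact this
  | algebraMap r =>
    refine ⟨0, ?_⟩
    have h1 : ∀ h, (⟨algebraMap k (EndR k n) r, h⟩ : DD k n) = r • (1 : DD k n) := fun h => by
      apply dd_ext
      intro v
      rw [smul_assoc, one_smul]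
      rfl
    have h2 : r • (1 : DD k n) ∈ bern k n 0 := Submodule.smul_mem _ r one_mem_bern
    rw [← h1 ((DS k n).algebraMap_mem r)] at h2
    exact h2
  | add x y hx hy ihx ihy =>
    obtain ⟨s, hs⟩ := ihx
    obtain ⟨s', hs'⟩ := ihy
    refine ⟨max s s', ?_⟩
    exact Submodule.add_mem _ (bern_mono (le_max_left _ _) hs) (bern_mono (le_max_right _ _) hs')
  | mul x y hx hy ihx ihy =>
    obtain ⟨s, hs⟩ := ihx
    obtain ⟨s', hs'⟩ := ihy
    exact ⟨s + s', bern_mul hs hs'⟩

end Pool.Agent.KS6_42.DX
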