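import Pool.Agent.KS6_42.DX.Ext

/-!
# The series
-/

set_option autoImplicit false

set_option linter.unusedSectionVars false

universe u v

namespace Pool.Agent.KS6_42.DX

open MvPolynomial Filter

/-! ### Commutation -/

section comm

variable (p : ℕ) [hp : Fact p.Prime] {k : Type u} [Field k] [CharP k p] {n : ℕ}

lemma comm_xm (d : DD k n) : ∃ e0 : ℕ, ∀ e, e0 ≤ e → ∀ (m : Fin n →₀ ℕ) (g : Rn k n),
    d • (xm k (p ^ e • m) * g) = xm k (p ^ e • m) * (d • g) := by
  obtain ⟨d, hd⟩ := d
  have key : ∃ e0 : ℕ, ∀ e, e0 ≤ e → ∀ (m : Fin n →₀ ℕ) (g : Rn k n),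
      d (xm k (p ^ e • m) * g) = xm k (p ^ e • m) * (d g) := by
    unfold DS at hd
    induction hd using Algebra.adjoin_induction with
    | mem x hx =>
      rcases hx with ⟨f, rfl⟩ | ⟨⟨i, t⟩, rfl⟩
      · refine ⟨0, fun e _ m g => ?_⟩
        change f * (xm k (p ^ e • m) * g) = xm k (p ^ e • m) * (f * g)
        ring
      · refine ⟨t, fun e he m g => ?_⟩
        have hlt : t < p ^ e := lt_of_le_of_lt he (Nat.lt_pow_self (Nat.Prime.one_lt hp.out))
        have key : (divD k n i t) ∘ₗ (LinearMap.mulLeft k (xm k (p ^ e • m))) =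
            (LinearMap.mulLeft k (xm k (p ^ e • m))) ∘ₗ (divD k n i t) := by
          apply ext_xm
          intro w
          rw [LinearMap.comp_apply, LinearMap.comp_apply,
            LinearMap.mulLeft_apply, LinearMap.mulLeft_apply, xm_mul, divD_xm, divD_xm]
          have h1 : (p ^ e • m + w) i = p ^ e * m i + w i := by simp
          rw [mul_smul_comm, xm_mul, h1, choose_add_lt p e _ _ t hlt]
          by_cases hw : t ≤ w i
          · congr 2
            ext j
            simp only [Finsupp.add_apply, Finsupp.tsub_apply]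
            by_cases hj : j = i
            · subst hj
              rw [Finsupp.single_eq_same]
              omega
            · rw [Finsupp.single_eq_of_ne hj]
              simp
          · rw [Nat.choose_eq_zero_of_lt (by omega)]
            simp
        exact LinearMap.congr_fun key g
    | algebraMap r =>
      refine ⟨0, fun e _ m g => ?_⟩
      change r • (xm k (p ^ e • m) * g) = xm k (p ^ e • m) * (r • g)
      rw [mul_smul_comm]
    | add x y _ _ hx hy =>
      obtain ⟨e1, h1⟩ := hx
      obtain ⟨e2, h2⟩ := hy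
      refine ⟨max e1 e2, fun e he m g => ?_⟩
      rw [LinearMap.add_apply, h1 e (le_trans (le_max_left _ _) he),
        h2 e (le_trans (le_max_right _ _) he), LinearMap.add_apply, mul_add]
    | mul x y _ _ hx hy =>
      obtain ⟨e1, h1⟩ := hx
      obtain ⟨e2, h2⟩ := hy
      refine ⟨max e1 e2, fun e he m g => ?_⟩
      rw [Module.End.mul_apply, h2 e (le_trans (le_max_right _ _) he),
        h1 e (le_trans (le_max_left _ _) he), Module.End.mul_apply]
  exact key

end comm

/-! ### The blocks -/

section blocks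

variable {n : ℕ} [NeZero n]

/-- An injection of the exponents into the natural numbers. -/
noncomputable def phi : (Fin n →₀ ℕ) → ℕ := (exists_injective_nat (Fin n →₀ ℕ)).choose

lemma phi_inj : Function.Injective (phi : (Fin n →₀ ℕ) → ℕ) :=
  (exists_injective_nat (Fin n →₀ ℕ)).choose_spec

/-- The nonzero exponents with coordinates less than `P`. -/
noncomputable def UU (n P : ℕ) : Finset (Fin n →₀ ℕ) := (box n P).erase 0

/-- The spread exponents. -/
noncomputable def mu (P : ℕ) (u : Fin n →₀ ℕ) : Fin n →₀ ℕ :=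
  u + Finsupp.single 0 (2 * P * phi u)

lemma le_mu (P : ℕ) (u : Fin n →₀ ℕ) : u ≤ mu P u := le_self_add

lemma mu_apply (P : ℕ) (u : Fin n →₀ ℕ) (i : Fin n) : ∃ c, mu P u i = P * c + u i := by
  unfold mu
  by_cases hi : i = 0
  · subst hi
    refine ⟨2 * phi u, ?_⟩
    rw [Finsupp.add_apply, Finsupp.single_eq_same]
    ring
  · refine ⟨0, ?_⟩
    rw [Finsupp.add_apply, Finsupp.single_eq_of_ne hi]
    ring

/-- The block `∑ x^(q m_u)`. -/
noncomputable def blk (k : Type u) [Field k] (q P : ℕ) : Rn k n :=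
  ∑ u ∈ UU n P, xm k (q • mu P u)

variable {k : Type u} [Field k]

/-- the monomials `x^(c + q m_u)` are different -/
lemma spread {q P : ℕ} (hq : 0 < q) {c c' u u' : Fin n →₀ ℕ} (hc : c ∈ box n (q * P))
    (hc' : c' ∈ box n (q * P)) (hu : u ∈ UU n P) (hu' : u' ∈ UU n P)
    (h : c + q • mu P u = c' + q • mu P u') : c = c' ∧ u = u' := by
  have h0 := DFunLike.congr_fun h 0
  have e1 : ∀ c u : Fin n →₀ ℕ, (c + q • mu P u) 0 = c 0 + q * u 0 + (2 * (q * P)) * phi u := by
    intro c u
    simp only [mu, Finsupp.add_apply, Finsupp.smul_apply, smul_eq_mul, Finsupp.single_eq_same]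
    ring
  rw [e1, e1] at h0
  have b1 : ∀ c u : Fin n →₀ ℕ, c ∈ box n (q * P) → u ∈ UU n P →
      c 0 + q * u 0 < 2 * (q * P) := by
    intro c u hc hu
    have h1 := mem_box.1 hc 0
    have h2 := mem_box.1 (Finset.mem_of_mem_erase hu) 0
    have h3 : q * u 0 < q * P := Nat.mul_lt_mul_of_pos_left h2 hq
    omega
  have h1 := b1 c u hc hu
  have h2 := b1 c' u' hc' hu'
  have h3 : phi u = phi u' := by
    have e2 := congrArg (fun x => x / (2 * (q * P))) h0
    beta_reduce at e2
    rw [Nat.add_mul_div_left _ _ (by omega), Nat.add_mul_div_left _ _ (by omega),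
      Nat.div_eq_of_lt h1, Nat.div_eq_of_lt h2] at e2
    omega
  have h4 := phi_inj h3
  subst h4
  exact ⟨add_right_cancel h, rfl⟩

/-- The conditions on the sequences of exponents. -/
structure Good (p n : ℕ) [NeZero n] (j e : ℕ → ℕ) : Prop where
  sep : ∀ l l', l < l' → ∀ u ∈ UU n (p ^ e l), deg (p ^ j l • mu (p ^ e l) u) < p ^ j l'
  big : ∀ l l', l < l' → p ^ j l * p ^ e l ≤ p ^ j l'
  jge : ∀ l, l ≤ j l

/-- The sequence of blocks. -/
noncomputable def ff (k : Type u) [Field k] (p : ℕ) (j e : ℕ → ℕ) (l : ℕ) : Rn k n :=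
  blk k (p ^ j l) (p ^ e l)

variable (p : ℕ) [hp : Fact p.Prime] [CharP k p] {j e : ℕ → ℕ}

lemma evComm (hg : Good p n j e) : EvComm (ff k p j e : ℕ → Rn k n) := by
  intro d
  obtain ⟨e0, h0⟩ := comm_xm p d
  rw [eventually_atTop]
  refine ⟨e0, fun l hl g => ?_⟩
  unfold ff blk
  rw [Finset.sum_mul, Finset.smul_sum, Finset.sum_mul]
  exact Finset.sum_congr rfl fun u _ => h0 _ (hl.trans (hg.jge l)) _ _

/-- `D_t` on a block -/
lemma Dt_blk (q P : ℕ) (t : Fin n →₀ ℕ) : Dt t (blk k q P : Rn k n) =
    ∑ w ∈ UU n P, (bi (q • mu P w) t : k) • xm k (q • mu P w - t) := by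
  unfold blk
  rw [map_sum]
  exact Finset.sum_congr rfl fun w _ => Dt_xm _ _

lemma exists_ne {t : Fin n →₀ ℕ} (ht : t ≠ 0) : ∃ i, t i ≠ 0 := by
  by_contra h
  push Not at h
  exact ht (Finsupp.ext h)

/-- Later blocks are killed. -/
lemma Dt_blk_later {a P : ℕ} {t : Fin n →₀ ℕ} (ht : t ≠ 0) (h : ∀ i, t i < p ^ a) :
    Dt t (blk k (p ^ a) P : Rn k n) = 0 := by
  rw [Dt_blk]
  refine Finset.sum_eq_zero fun w _ => ?_
  obtain ⟨i, hi⟩ := exists_ne ht
  have : (bi (p ^ a • mu P w) t : k) = 0 := by
    rw [bi, Nat.cast_prod]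
    refine Finset.prod_eq_zero (Finset.mem_univ i) ?_
    rw [Finsupp.smul_apply, smul_eq_mul]
    exact choose_mul_lt p a _ _ (Nat.pos_of_ne_zero hi) (h i)
  rw [this, zero_smul]

/-- Earlier blocks are killed. -/
lemma Dt_blk_earlier {q P : ℕ} {t : Fin n →₀ ℕ} {i : Fin n}
    (h : ∀ u ∈ UU n P, deg (q • mu P u) < t i) : Dt t (blk k q P : Rn k n) = 0 := by
  rw [Dt_blk]
  refine Finset.sum_eq_zero fun w hw => ?_
  have : bi (q • mu P w) t = 0 := by
    rw [bi]
    refine Finset.prod_eq_zero (Finset.mem_univ i) (Nat.choose_eq_zero_of_lt ?_)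
    exact lt_of_le_of_lt (le_deg _ i) (h w hw)
  rw [this, Nat.cast_zero, zero_smul]

lemma bi_cast_mul (a b : ℕ) (w t : Fin n →₀ ℕ) (ht : ∀ i, t i < p ^ b) :
    (bi (p ^ a • mu (p ^ b) w) (p ^ a • t) : k) = (bi w t : k) := by
  rw [bi, bi, Nat.cast_prod, Nat.cast_prod]
  refine Finset.prod_congr rfl fun i _ => ?_
  rw [Finsupp.smul_apply, Finsupp.smul_apply, smul_eq_mul, smul_eq_mul, choose_mul_mul p]
  obtain ⟨c, hc⟩ := mu_apply (p ^ b) w i
  rw [hc, choose_add_lt p b c _ _ (ht i)]

lemma ff_eq (l : ℕ) : (ff k p j e l : Rn k n) = blk k (p ^ j l) (p ^ e l) := rfl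

/-- The action on the generator. -/
lemma smul_gen_block (hg : Good p n j e) (hf : EvComm (ff k p j e : ℕ → Rn k n)) (l : ℕ)
    (c t : Fin n →₀ ℕ) (ht : t ∈ UU n (p ^ e l)) :
    (basisD (c + p ^ j l • t) (p ^ j l • t) : DD k n) • mk hf 0 1 =
      mk hf (∑ w ∈ UU n (p ^ e l), (bi w t : k) • xm k (c + p ^ j l • mu (p ^ e l) w)) 0 := by
  have hp0 : 0 < p := hp.out.pos
  have ht0 : t ≠ 0 := Finset.ne_of_mem_erase ht
  have htP : ∀ i, t i < p ^ e l := mem_box.1 (Finset.mem_of_mem_erase ht)
  have hqt : p ^ j l • t ≠ 0 := by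
    obtain ⟨i, hi⟩ := exists_ne ht0
    intro h
    have := DFunLike.congr_fun h i
    rw [Finsupp.smul_apply, smul_eq_mul, Finsupp.zero_apply] at this
    rcases Nat.mul_eq_zero.1 this with h1 | h1
    · exact absurd h1 (pow_pos hp0 _).ne'
    · exact hi h1
  obtain ⟨N, hN1, hN2⟩ := ((smul_gen2' hf (c + p ^ j l • t) _ hqt).and
    (eventually_gt_atTop l)).exists
  rw [hN1]
  congr 1
  unfold ps
  rw [map_sum, Finset.mul_sum, Finset.sum_eq_single_of_mem l (Finset.mem_range.2 hN2)]
  · rw [ff_eq, Dt_blk, Finset.mul_sum]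
    refine Finset.sum_congr rfl fun w _ => ?_
    rw [bi_cast_mul p _ _ _ _ htP, mul_smul_comm, xm_mul]
    by_cases h : t ≤ w
    · congr 2
      have h1 : p ^ j l • t ≤ p ^ j l • mu (p ^ e l) w := by
        intro i
        rw [Finsupp.smul_apply, Finsupp.smul_apply]
        exact Nat.mul_le_mul_left _ ((h.trans (le_mu _ _)) i)
      rw [add_assoc, add_tsub_cancel_of_le h1]
    · have : bi w t = 0 := by
        by_contra h0
        exact h (bi_ne_zero h0)
      rw [this, Nat.cast_zero, zero_smul, zero_smul]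
  · intro l' _ hl'
    rw [ff_eq]
    rcases lt_or_gt_of_ne hl' with h | h
    · obtain ⟨i, hi⟩ := exists_ne ht0
      rw [Dt_blk_earlier (i := i), mul_zero]
      intro u hu
      refine lt_of_lt_of_le (hg.sep l' l h u hu) ?_
      rw [Finsupp.smul_apply, smul_eq_mul]
      exact Nat.le_mul_of_pos_right _ (Nat.pos_of_ne_zero hi)
    · rw [Dt_blk_later p hqt, mul_zero]
      intro i
      rw [Finsupp.smul_apply, smul_eq_mul]
      refine lt_of_lt_of_le ?_ (hg.big l l' h)
      exact Nat.mul_lt_mul_of_pos_left (htP i) (pow_pos hp0 _)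

/-- The first inclusion, as a `k`-linear map. -/
noncomputable def inc {f : ℕ → Rn k n} (hf : EvComm f) : Rn k n →ₗ[k] MM hf :=
  LinearMap.inl k (Rn k n) (Rn k n)

lemma inc_apply {f : ℕ → Rn k n} (hf : EvComm f) (a : Rn k n) : inc hf a = mk hf a 0 := rfl

lemma inc_injective {f : ℕ → Rn k n} (hf : EvComm f) : Function.Injective (inc hf) :=
  LinearMap.inl_injective

lemma deg_smul (q : ℕ) (a : Fin n →₀ ℕ) : deg (q • a) = q * deg a := by
  simp [deg, Finset.mul_sum]

lemma deg_lt {a b : Fin n →₀ ℕ} (h : a ≤ b) (hne : a ≠ b) : deg a < deg b := by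
  refine Finset.sum_lt_sum (fun i _ => h i) ?_
  by_contra hcon
  push Not at hcon
  exact hne (le_antisymm h fun i => hcon i (Finset.mem_univ i))

/-- The elements `(x^(c + q m_u), 0)` lie in the filtration. -/
lemma mem_filt_block (hg : Good p n j e) (hf : EvComm (ff k p j e : ℕ → Rn k n)) (l : ℕ)
    (c : Fin n →₀ ℕ)
    (hc : c ∈ box n (p ^ j l * p ^ e l)) (u : Fin n →₀ ℕ) (hu : u ∈ UU n (p ^ e l)) :
    inc hf (xm k (c + p ^ j l • mu (p ^ e l) u)) ∈
      filt k n (gens hf) (3 * n * (p ^ j l * p ^ e l)) := by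
  have hp0 : 0 < p := hp.out.pos
  set q := p ^ j l with hq
  set P := p ^ e l with hP
  have hq0 : 0 < q := pow_pos hp0 _
  have hP0 : 0 < P := pow_pos hp0 _
  have hdeg : ∀ w ∈ UU n P, deg w ≤ n * P := fun w hw =>
    (deg_of_mem_box (Finset.mem_of_mem_erase hw)).trans (Nat.mul_le_mul_left _ (Nat.sub_le _ _))
  induction hN : n * P - deg u using Nat.strong_induction_on generalizing u with
  | _ N ih =>
    subst hN
    have hmem : (basisD (c + q • u) (q • u) : DD k n) • mk hf 0 1 ∈
        filt k n (gens hf) (3 * n * (q * P)) := by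
      have h1 : (basisD (c + q • u) (q • u) : DD k n) ∈ bern k n (3 * n * (q * P)) := by
        apply basisD_mem
        rw [deg_add, deg_smul]
        have h2 : deg c ≤ n * (q * P) := (deg_of_mem_box hc).trans
          (Nat.mul_le_mul_left _ (Nat.sub_le _ _))
        have h3 : q * deg u ≤ q * (n * P) := Nat.mul_le_mul_left _ (hdeg u hu)
        have h4 : q * (n * P) = n * (q * P) := by ring
        have h5 : 3 * n * (q * P) = n * (q * P) + n * (q * P) + n * (q * P) := by ring
        omega
      have h2 := smul_mem_filt (S := gens hf) h1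
        (subset_filt (gens hf) 0 (Or.inr rfl))
      rwa [add_zero] at h2
    rw [smul_gen_block p hg hf l c u hu, ← inc_apply, map_sum,
      ← Finset.add_sum_erase _ _ hu, bi_self, Nat.cast_one, one_smul] at hmem
    refine (Submodule.add_mem_iff_left _ ?_).1 hmem
    refine Submodule.sum_mem _ fun w hw => ?_
    rw [map_smul]
    by_cases h : bi w u = 0
    · rw [h, Nat.cast_zero, zero_smul]; exact Submodule.zero_mem _
    · have hw' : w ∈ UU n P := Finset.mem_of_mem_erase hw
      have hlt : deg u < deg w := deg_lt (bi_ne_zero h) (Finset.ne_of_mem_erase hw).symm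
      have hle := hdeg w hw'
      exact Submodule.smul_mem _ _ (ih _ (by omega) w hw' rfl)

lemma card_UU (P : ℕ) (hP : 0 < P) : (UU n P).card = P ^ n - 1 := by
  unfold UU
  rw [Finset.card_erase_of_mem (mem_box.2 fun i => hP), card_box]

/-- the generators as a finite set -/
lemma exists_gensF {f : ℕ → Rn k n} (hf : EvComm f) :
    ∃ S : Finset (MM hf), (S : Set (MM hf)) = gens hf :=
  ⟨((Set.finite_singleton (mk hf 0 1)).insert (mk hf 1 0)).toFinset, Set.Finite.coe_toFinset _⟩

/-- **The lower bound.** -/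
theorem lower (hg : Good p n j e) (hf : EvComm (ff k p j e : ℕ → Rn k n)) (l : ℕ) :
    (p ^ j l * p ^ e l) ^ n * ((p ^ e l) ^ n - 1) ≤
      Module.finrank k (filt k n (gens hf)
        (3 * n * (p ^ j l * p ^ e l))) := by
  classical
  have hp0 : 0 < p := hp.out.pos
  let w : (box n (p ^ j l * p ^ e l)) × (UU n (p ^ e l)) →
      filt k n (gens hf) (3 * n * (p ^ j l * p ^ e l)) := fun z =>
    ⟨_, mem_filt_block p hg hf l z.1 z.1.2 z.2 z.2.2⟩
  have hli : LinearIndependent k w := by
    have h0 : LinearIndependent k (fun z : (box n (p ^ j l * p ^ e l)) × (UU n (p ^ e l)) =>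
        xm k ((z.1 : Fin n →₀ ℕ) + p ^ j l • mu (p ^ e l) (z.2 : Fin n →₀ ℕ))) := by
      refine linearIndependent_xm.comp (fun z : (box n (p ^ j l * p ^ e l)) × (UU n (p ^ e l)) =>
        ((z.1 : Fin n →₀ ℕ) + p ^ j l • mu (p ^ e l) (z.2 : Fin n →₀ ℕ))) ?_
      intro z z' h
      obtain ⟨h1, h2⟩ := spread (pow_pos hp0 _) z.1.2 z'.1.2 z.2.2 z'.2.2 h
      exact Prod.ext (Subtype.ext h1) (Subtype.ext h2)
    have h1 := h0.map' (inc hf) (LinearMap.ker_eq_bot.2 (inc_injective hf))
    exact LinearIndependent.of_comp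
      (filt k n (gens hf) (3 * n * (p ^ j l * p ^ e l))).subtype h1
  have hfd : FiniteDimensional k (filt k n (gens hf) (3 * n * (p ^ j l * p ^ e l))) := by
    obtain ⟨S, hS⟩ := exists_gensF hf
    rw [← hS]; exact finite_filt _ _
  have hcard := hli.fintype_card_le_finrank
  rw [Fintype.card_prod, Fintype.card_coe, Fintype.card_coe, card_box,
    card_UU _ (pow_pos hp0 _)] at hcard
  exact hcard

/-! ### The upper bound -/

/-- A criterion for the upper bound. -/
lemma finrank_le_of_le_span {M : Type v} [AddCommGroup M] [Module k M] {V : Submodule k M}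
    {T : Finset M} (h : V ≤ Submodule.span k (T : Set M)) : Module.finrank k V ≤ T.card := by
  have : FiniteDimensional k (Submodule.span k (T : Set M)) :=
    FiniteDimensional.span_finset k T
  exact (Submodule.finrank_mono h).trans (finrank_span_finset_le_card T)

/-- The elements needed besides those coming from the block `l`. -/
noncomputable def TA {f : ℕ → Rn k n} (hf : EvComm f) (s : ℕ) : Finset (MM hf) := by
  classical exact (box n (2 * s + 1)).image (fun a => mk hf (xm k a) 0) ∪
    (box n (2 * s + 1)).image (fun a => mk hf 0 (xm k a))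

lemma card_TA {f : ℕ → Rn k n} (hf : EvComm f) (s : ℕ) :
    (TA hf s).card ≤ 2 * (2 * s + 1) ^ n := by
  classical
  unfold TA
  refine (Finset.card_union_le _ _).trans ?_
  have h1 := Finset.card_image_le (s := box n (2 * s + 1)) (f := fun a => mk hf (xm k a) 0)
  have h2 := Finset.card_image_le (s := box n (2 * s + 1)) (f := fun a => mk hf 0 (xm k a))
  rw [card_box] at h1 h2
  omega

/-- The filtration at `s` lies in the span of `TA` and the part from the current block. -/
lemma filt_le (hg : Good p n j e) (hf : EvComm (ff k p j e : ℕ → Rn k n)) (l s : ℕ) (h1 : p ^ j l ≤ s) (h2 : s < p ^ j (l + 1))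
    (T : Submodule k (MM hf))
    (hA : Submodule.span k (TA hf s : Set _) ≤ T)
    (hT : ∀ a t : Fin n →₀ ℕ, t ≠ 0 → deg a + deg t ≤ s →
      inc hf (xm k a * Dt t (blk k (p ^ j l) (p ^ e l))) ∈ T) :
    filt k n (gens hf) s ≤ T := by
  classical
  have hp0 : 0 < p := hp.out.pos
  have hA1 : ∀ a : Fin n →₀ ℕ, deg a ≤ 2 * s → mk hf (xm k a) 0 ∈ T := by
    intro a ha
    apply hA
    apply Submodule.subset_span
    unfold TA
    rw [Finset.mem_coe, Finset.mem_union]
    exact Or.inl (Finset.mem_image.2 ⟨a, mem_box_of_deg ha, rfl⟩)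
  have hA2 : ∀ a : Fin n →₀ ℕ, deg a ≤ 2 * s → mk hf 0 (xm k a) ∈ T := by
    intro a ha
    apply hA
    apply Submodule.subset_span
    unfold TA
    rw [Finset.mem_coe, Finset.mem_union]
    exact Or.inr (Finset.mem_image.2 ⟨a, mem_box_of_deg ha, rfl⟩)
  rw [filt_eq, Submodule.span_le]
  rintro y ⟨a, t, hat, m, hm, rfl⟩
  rw [SetLike.mem_coe]
  by_cases ht : t = 0
  · subst ht
    have ha : deg a ≤ 2 * s := by omega
    rcases hm with rfl | rfl
    · rw [smul_gen1]; exact hA1 a ha
    · rw [smul_gen2]; exact hA2 a ha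
  · rcases hm with rfl | rfl
    · rw [smul_gen1' hf a t ht]; exact Submodule.zero_mem _
    · obtain ⟨N, hN⟩ := (smul_gen2' hf a t ht).exists
      rw [hN, ← inc_apply]
      unfold ps
      rw [map_sum, Finset.mul_sum, map_sum]
      refine Submodule.sum_mem _ fun l' _ => ?_
      rcases lt_trichotomy l' l with h | h | h
      · -- earlier blocks
        rw [ff_eq, Dt_blk, Finset.mul_sum, map_sum]
        refine Submodule.sum_mem _ fun w hw => ?_
        rw [mul_smul_comm, xm_mul, map_smul]
        apply Submodule.smul_mem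
        apply hA1
        rw [deg_add]
        have h3 := hg.sep l' l h w hw
        have h4 : deg (p ^ j l' • mu (p ^ e l') w - t) ≤ deg (p ^ j l' • mu (p ^ e l') w) :=
          deg_mono tsub_le_self
        omega
      · subst h
        exact hT a t ht hat
      · -- later blocks
        rw [ff_eq, Dt_blk_later p ht, mul_zero, map_zero]
        · exact Submodule.zero_mem _
        · intro i
          have h3 := le_deg t i
          have h4 : p ^ j (l + 1) ≤ p ^ j l' := by
            rcases Nat.lt_or_ge (l + 1) l' with h5 | h5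
            · exact (Nat.le_mul_of_pos_right _ (pow_pos hp0 _)).trans (hg.big _ _ h5)
            · rw [show l' = l + 1 by omega]
          omega

/-- **The first upper bound.** -/
theorem upper1 (hg : Good p n j e) (hf : EvComm (ff k p j e : ℕ → Rn k n)) (l s : ℕ) (h1 : p ^ j l ≤ s) (h2 : s < p ^ j (l + 1)) :
    Module.finrank k (filt k n (gens hf) s) ≤
      2 * (2 * s + 1) ^ n + (s + 1) ^ n * (s / p ^ j l + 1) ^ n := by
  classical
  have hp0 : 0 < p := hp.out.pos
  let TB : Finset (MM hf) := ((box n (s + 1)) ×ˢ (box n (s / p ^ j l + 1))).image fun z =>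
    inc hf (xm k z.1 * Dt (p ^ j l • z.2) (blk k (p ^ j l) (p ^ e l)))
  have hle : filt k n (gens hf) s ≤ Submodule.span k ((TA hf s ∪ TB : Finset (MM hf)) : Set _) := by
    refine filt_le p hg hf l s h1 h2 _ (Submodule.span_mono (by
      rw [Finset.coe_union]; exact Set.subset_union_left)) ?_
    intro a t ht hat
    by_cases hd : ∀ i, p ^ j l ∣ t i
    · choose c hc using hd
      let t' : Fin n →₀ ℕ := Finsupp.equivFunOnFinite.symm c
      have ht' : t = p ^ j l • t' := by
        ext i
        rw [Finsupp.smul_apply, smul_eq_mul]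
        exact hc i
      apply Submodule.subset_span
      rw [Finset.coe_union]
      refine Or.inr ?_
      rw [Finset.mem_coe, Finset.mem_image]
      refine ⟨(a, t'), ?_, by rw [← ht']⟩
      rw [Finset.mem_product]
      refine ⟨mem_box_of_deg (show deg a ≤ s by omega), mem_box.2 fun i => ?_⟩
      have h3 := le_deg t i
      have h4 : t i = p ^ j l * t' i := hc i
      show t' i < s / p ^ j l + 1
      rw [Nat.lt_succ_iff, Nat.le_div_iff_mul_le (pow_pos hp0 _), mul_comm]
      omega
    · push Not at hd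
      obtain ⟨i, hi⟩ := hd
      have : Dt t (blk k (p ^ j l) (p ^ e l) : Rn k n) = 0 := by
        rw [Dt_blk]
        refine Finset.sum_eq_zero fun w _ => ?_
        have : (bi (p ^ j l • mu (p ^ e l) w) t : k) = 0 := by
          rw [bi, Nat.cast_prod]
          refine Finset.prod_eq_zero (Finset.mem_univ i) ?_
          rw [Finsupp.smul_apply, smul_eq_mul]
          exact choose_mul_not_dvd p _ _ _ hi
        rw [this, zero_smul]
      rw [this, mul_zero, map_zero]
      exact Submodule.zero_mem _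
  refine (finrank_le_of_le_span hle).trans ((Finset.card_union_le _ _).trans ?_)
  have h3 := card_TA hf s
  have h4 : TB.card ≤ (s + 1) ^ n * (s / p ^ j l + 1) ^ n := by
    refine Finset.card_image_le.trans ?_
    rw [Finset.card_product, card_box, card_box]
  omega

/-- **The second upper bound.** -/
theorem upper2 (hg : Good p n j e) (hf : EvComm (ff k p j e : ℕ → Rn k n)) (l s : ℕ) (h1 : p ^ j l ≤ s) (h2 : s < p ^ j (l + 1)) :
    Module.finrank k (filt k n (gens hf) s) ≤
      2 * (2 * s + 1) ^ n + (p ^ e l) ^ n * (2 * s + 1) ^ n := by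
  classical
  have hp0 : 0 < p := hp.out.pos
  let sh : Fin n →₀ ℕ := Finsupp.equivFunOnFinite.symm fun _ => s
  let TB : Finset (MM hf) := ((UU n (p ^ e l)) ×ˢ (box n (2 * s + 1))).image fun z =>
    inc hf (xm k ((z.2 + p ^ j l • mu (p ^ e l) z.1) - sh))
  have hle : filt k n (gens hf) s ≤ Submodule.span k ((TA hf s ∪ TB : Finset (MM hf)) : Set _) := by
    refine filt_le p hg hf l s h1 h2 _ (Submodule.span_mono (by
      rw [Finset.coe_union]; exact Set.subset_union_left)) ?_
    intro a t ht hat
    rw [Dt_blk, Finset.mul_sum, map_sum]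
    refine Submodule.sum_mem _ fun w hw => ?_
    rw [mul_smul_comm, xm_mul, map_smul]
    by_cases h : bi (p ^ j l • mu (p ^ e l) w) t = 0
    · rw [h, Nat.cast_zero, zero_smul]; exact Submodule.zero_mem _
    · apply Submodule.smul_mem
      apply Submodule.subset_span
      rw [Finset.coe_union]
      refine Or.inr ?_
      rw [Finset.mem_coe, Finset.mem_image]
      have hle := bi_ne_zero h
      have hts : t ≤ sh := fun i => by
        have := le_deg t i
        show t i ≤ s
        omega
      refine ⟨(w, a + (sh - t)), ?_, ?_⟩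
      · rw [Finset.mem_product]
        refine ⟨hw, mem_box.2 fun i => ?_⟩
        have h3 := le_deg a i
        show a i + (sh i - t i) < 2 * s + 1
        have : sh i = s := rfl
        omega
      · congr 2
        ext i
        have h3 := hle i
        have h4 := hts i
        simp only [Finsupp.add_apply, Finsupp.tsub_apply] at h3 h4 ⊢
        omega
  refine (finrank_le_of_le_span hle).trans ((Finset.card_union_le _ _).trans ?_)
  have h3 := card_TA hf s
  have h4 : TB.card ≤ (p ^ e l) ^ n * (2 * s + 1) ^ n := by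
    refine Finset.card_image_le.trans ?_
    rw [Finset.card_product, card_box, card_UU _ (pow_pos hp0 _)]
    exact Nat.mul_le_mul_right _ (Nat.sub_le _ _)
  omega

end blocks

end Pool.Agent.KS6_42.DX
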